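import Pool.Agent.D0H47.IC.JointLow

/-!
The volume of the cluster of the origin when it reaches distance `N`: moments, both bounds; the
law conditioned on the arm event.
-/

set_option autoImplicit false

namespace Pool.Agent.D0H47.IC
open Finset H974 Pool.Agent.H160R2.CV Pool.Agent.H160R2.CV.Quad H362P MeasureTheory Filter
open Pool.Agent.H389R2.CD Pool.Agent.Y244.PC

/-- the moment of the volume on the arm event -/
noncomputable def Mo (n N k : ℕ) : ℝ :=
  ∫ ω, (ms n (opn ω) : ℝ) ^ k * ind (FarS N (opn ω)) ∂(bondLaw hlf)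

theorem Mo_int (n N k : ℕ) : Integrable (fun ω : sqLattice.edgeSet → Bool =>
    (ms n (opn ω) : ℝ) ^ k * ind (FarS N (opn ω))) (bondLaw hlf) := by
  have h := Vm_int n N k {(0, 0)}
  refine h.congr (Filter.Eventually.of_forall fun ω => ?_)
  show Vm n (opn ω) k {(0, 0)} * ind (FarS N (opn ω)) =
    (ms n (opn ω) : ℝ) ^ k * ind (FarS N (opn ω))
  rw [Vm_eq n (opn ω) k {(0, 0)} (Finset.mem_singleton_self _)]
  have : Cn {((0, 0) : Vtx)} (opn ω) := by
    intro u hu v hv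
    rw [Finset.mem_singleton] at hu hv
    rw [hu, hv]
    exact Reach.refl _ _
  rw [ind_of this, mul_one]

theorem Mo_le_sup (n N k : ℕ) : Mo n N k ≤ ((2 * (n : ℝ) + 1) ^ 2) ^ k * Ev (FarS N) := by
  have hI := int_ind (inc_FarS N)
  unfold Mo
  rw [← hI.2, ← integral_const_mul]
  apply integral_mono (Mo_int n N k) (hI.1.const_mul _)
  intro ω
  exact mul_le_mul_of_nonneg_right (pow_le_pow_left₀ (Nat.cast_nonneg _) (ms_le n _) k)
    (ind_nonneg _)

/-- the scale of the `k`-th moment -/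
noncomputable def sc (n k : ℕ) : ℝ :=
  (n : ℝ) ^ (91 / 48 : ℝ) * ((min k (n ^ 2) : ℕ) : ℝ) ^ (5 / 96 : ℝ)

theorem sq_pow {n : ℕ} (hn : 1 ≤ n) :
    (n : ℝ) ^ (91 / 48 : ℝ) * ((n : ℝ) ^ 2) ^ (5 / 96 : ℝ) = (n : ℝ) ^ 2 := by
  have hn0 : (0 : ℝ) < n := by exact_mod_cast hn
  rw [← Real.rpow_natCast (n : ℝ) 2, ← Real.rpow_mul hn0.le, ← Real.rpow_add hn0]
  congr 1
  norm_num

theorem sc_ge_one {n k : ℕ} (hn : 1 ≤ n) (hk : 1 ≤ k) : 1 ≤ sc n k := by
  unfold sc
  have h1 : (1 : ℝ) ≤ n := by exact_mod_cast hn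
  have h2 : (1 : ℝ) ≤ (min k (n ^ 2) : ℕ) := by
    exact_mod_cast le_min hk (Nat.one_le_pow _ _ hn)
  have h3 : (1 : ℝ) ≤ (n : ℝ) ^ (91 / 48 : ℝ) := Real.one_le_rpow h1 (by norm_num)
  have h4 : (1 : ℝ) ≤ ((min k (n ^ 2) : ℕ) : ℝ) ^ (5 / 96 : ℝ) :=
    Real.one_le_rpow h2 (by norm_num)
  nlinarith

theorem mo_upper (hAr : ArSharp) : ∃ C : ℝ, 0 < C ∧ ∀ n N k : ℕ, 1 ≤ n → n ≤ N → 1 ≤ k →
    Mo n N k ≤ (C * sc n k) ^ k * Ev (FarS N) := by
  obtain ⟨C, hC, h⟩ := moment_upper hAr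
  obtain ⟨c0, C0, hc0, hC0, har⟩ := hAr
  set D : ℝ := max (max 1 (C / c0) * (C * 2)) 25 with hD
  have hD25 : 25 ≤ D := le_max_right _ _
  refine ⟨D, by linarith, fun n N k hn hnN hk => ?_⟩
  have hn1 : (1 : ℝ) ≤ n := by exact_mod_cast hn
  have hn0 : (0 : ℝ) < n := by linarith
  have hEv := Ev_nonneg (FarS N)
  have hsc := sc_ge_one hn hk
  by_cases hkn : k ≤ n ^ 2
  · by_cases hN : 3 ≤ N
    · have h1 : Mo n N k ≤ C * (C * ((n : ℝ) ^ (91 / 48 : ℝ) * ((k + 1 : ℕ) : ℝ) ^ (5 / 96 : ℝ))) ^ k *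
          (N : ℝ) ^ (-(5 / 48 : ℝ)) := h n N k hn hnN hN
      have h2 : (N : ℝ) ^ (-(5 / 48 : ℝ)) ≤ Ev (FarS N) / c0 := by
        rw [le_div_iff₀ hc0, mul_comm, Ev_FarS]
        exact (har N (by omega)).1
      have hk0 : (0 : ℝ) < k := by exact_mod_cast hk
      have h3 : ((k + 1 : ℕ) : ℝ) ^ (5 / 96 : ℝ) ≤ 2 * (k : ℝ) ^ (5 / 96 : ℝ) := by
        calc ((k + 1 : ℕ) : ℝ) ^ (5 / 96 : ℝ) ≤ (2 * (k : ℝ)) ^ (5 / 96 : ℝ) := by
              apply Real.rpow_le_rpow (by positivity) _ (by norm_num)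
              have : k + 1 ≤ 2 * k := by omega
              exact_mod_cast this
          _ = 2 ^ (5 / 96 : ℝ) * (k : ℝ) ^ (5 / 96 : ℝ) := Real.mul_rpow (by norm_num) hk0.le
          _ ≤ 2 ^ (1 : ℝ) * (k : ℝ) ^ (5 / 96 : ℝ) := by
              apply mul_le_mul_of_nonneg_right _ (by positivity)
              exact Real.rpow_le_rpow_of_exponent_le (by norm_num) (by norm_num)
          _ = _ := by rw [Real.rpow_one]
      have hmin : min k (n ^ 2) = k := min_eq_left hkn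
      have h4 : C * ((n : ℝ) ^ (91 / 48 : ℝ) * ((k + 1 : ℕ) : ℝ) ^ (5 / 96 : ℝ)) ≤
          C * 2 * sc n k := by
        unfold sc
        rw [hmin]
        have := mul_le_mul_of_nonneg_left h3
          (show (0 : ℝ) ≤ C * (n : ℝ) ^ (91 / 48 : ℝ) by positivity)
        calc _ = C * (n : ℝ) ^ (91 / 48 : ℝ) * ((k + 1 : ℕ) : ℝ) ^ (5 / 96 : ℝ) := by ring
          _ ≤ _ := this
          _ = _ := by ring
      have h5 : C / c0 ≤ (max 1 (C / c0)) ^ k := by
        calc C / c0 ≤ (max 1 (C / c0)) ^ 1 := by rw [pow_one]; exact le_max_right _ _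
          _ ≤ (max 1 (C / c0)) ^ k := pow_le_pow_right₀ (le_max_left _ _) hk
      calc Mo n N k ≤ C * (C * ((n : ℝ) ^ (91 / 48 : ℝ) * ((k + 1 : ℕ) : ℝ) ^ (5 / 96 : ℝ))) ^ k *
            (N : ℝ) ^ (-(5 / 48 : ℝ)) := h1
        _ ≤ C * (C * 2 * sc n k) ^ k * (Ev (FarS N) / c0) := by
            apply mul_le_mul _ h2 (by positivity) (by positivity)
            apply mul_le_mul_of_nonneg_left _ hC.le
            exact pow_le_pow_left₀ (by positivity) h4 k
        _ = (C / c0) * (C * 2 * sc n k) ^ k * Ev (FarS N) := by ring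
        _ ≤ (max 1 (C / c0)) ^ k * (C * 2 * sc n k) ^ k * Ev (FarS N) := by
            apply mul_le_mul_of_nonneg_right _ hEv
            exact mul_le_mul_of_nonneg_right h5 (by positivity)
        _ = ((max 1 (C / c0) * (C * 2)) * sc n k) ^ k * Ev (FarS N) := by
            rw [← mul_pow]
            congr 2
            ring
        _ ≤ _ := by
            apply mul_le_mul_of_nonneg_right _ hEv
            apply pow_le_pow_left₀
            · have : 0 ≤ max 1 (C / c0) := le_trans zero_le_one (le_max_left _ _)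
              have h0 : 0 ≤ sc n k := by linarith
              positivity
            · exact mul_le_mul_of_nonneg_right (le_max_left _ _) (by linarith)
    · refine (Mo_le_sup n N k).trans ?_
      apply mul_le_mul_of_nonneg_right _ hEv
      apply pow_le_pow_left₀ (by positivity)
      have h6 : (n : ℝ) ≤ 2 := by exact_mod_cast (by omega : n ≤ 2)
      calc (2 * (n : ℝ) + 1) ^ 2 ≤ 25 := by nlinarith
        _ ≤ D * 1 := by linarith
        _ ≤ D * sc n k := mul_le_mul_of_nonneg_left hsc (by linarith)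
  · push Not at hkn
    refine (Mo_le_sup n N k).trans ?_
    apply mul_le_mul_of_nonneg_right _ hEv
    apply pow_le_pow_left₀ (by positivity)
    have hmin : min k (n ^ 2) = n ^ 2 := min_eq_right hkn.le
    have h7 : sc n k = (n : ℝ) ^ 2 := by
      unfold sc
      rw [hmin]
      push_cast
      exact sq_pow hn
    rw [h7]
    nlinarith

theorem mo_lower (hAr : ArSharp) : ∃ c : ℝ, 0 < c ∧ ∀ n N k : ℕ, 1 ≤ n → n ≤ N → 1 ≤ k →
    (c * sc n k) ^ k * Ev (FarS N) ≤ Mo n N k := by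
  obtain ⟨C, hC, h⟩ := up_lower hAr
  refine ⟨Real.exp (-C), Real.exp_pos _, fun n N k hn hnN hk => ?_⟩
  have hn1 : (1 : ℝ) ≤ n := by exact_mod_cast hn
  have hn0 : (0 : ℝ) < n := by linarith
  have hEv := Ev_nonneg (FarS N)
  set q : ℕ := min k (n ^ 2) with hq
  have hq1 : 1 ≤ q := le_min hk (Nat.one_le_pow _ _ hn)
  have hqr : (1 : ℝ) ≤ q := by exact_mod_cast hq1
  set x : ℝ := (q : ℝ) ^ (5 / 96 : ℝ) with hx
  have hx1 : 1 ≤ x := Real.one_le_rpow hqr (by norm_num)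
  have hxq : x ^ (96 / 5 : ℝ) = q := by
    rw [hx, ← Real.rpow_mul (by positivity)]
    norm_num
  have hsc : sc n k = x * (n : ℝ) ^ (91 / 48 : ℝ) := by
    unfold sc
    rw [← hq, mul_comm]
  have hle : x * (n : ℝ) ^ (91 / 48 : ℝ) ≤ (2 * (n : ℝ) + 1) ^ 2 := by
    have h1 : x ≤ ((n : ℝ) ^ 2) ^ (5 / 96 : ℝ) := by
      apply Real.rpow_le_rpow (by positivity) _ (by norm_num)
      have : q ≤ n ^ 2 := min_le_right _ _
      exact_mod_cast this
    calc x * (n : ℝ) ^ (91 / 48 : ℝ) ≤ ((n : ℝ) ^ 2) ^ (5 / 96 : ℝ) * (n : ℝ) ^ (91 / 48 : ℝ) :=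
          mul_le_mul_of_nonneg_right h1 (by positivity)
      _ = (n : ℝ) ^ 2 := by rw [mul_comm, sq_pow hn]
      _ ≤ _ := by nlinarith
  have h2 := h n N hn hnN x hx1 hle
  rw [hxq] at h2
  have h3 := markov n N k (y := x * (n : ℝ) ^ (91 / 48 : ℝ)) (by positivity)
  have h4 : Real.exp (-C) ^ k ≤ Real.exp (-(C * q)) := by
    rw [← Real.exp_nat_mul]
    apply Real.exp_le_exp.mpr
    have : (q : ℝ) ≤ k := by exact_mod_cast (min_le_left _ _ : q ≤ k)
    nlinarith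
  rw [hsc, mul_pow]
  calc Real.exp (-C) ^ k * (x * (n : ℝ) ^ (91 / 48 : ℝ)) ^ k * Ev (FarS N)
      ≤ Real.exp (-(C * q)) * (x * (n : ℝ) ^ (91 / 48 : ℝ)) ^ k * Ev (FarS N) := by
        apply mul_le_mul_of_nonneg_right _ hEv
        exact mul_le_mul_of_nonneg_right h4 (by positivity)
    _ = (x * (n : ℝ) ^ (91 / 48 : ℝ)) ^ k * (Real.exp (-(C * q)) * Ev (FarS N)) := by ring
    _ ≤ (x * (n : ℝ) ^ (91 / 48 : ℝ)) ^ k *
          Ev (fun F => MsG n (x * (n : ℝ) ^ (91 / 48 : ℝ)) F ∧ FarS N F) :=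
        mul_le_mul_of_nonneg_left h2 (by positivity)
    _ ≤ Mo n N k := h3

/-! ### the conditional law -/

/-- the law conditioned on the arm event -/
noncomputable def cl (N : ℕ) : Measure (sqLattice.edgeSet → Bool) :=
  ProbabilityTheory.cond (bondLaw hlf) {ω | FarS N (opn ω)}

theorem Ev_FarS_pos (N : ℕ) : 0 < Ev (FarS N) := by
  rw [Ev_FarS]
  exact ar_pos N

theorem cl_real (N : ℕ) (Q : Set Edg → Prop) :
    (cl N).real {ω | Q (opn ω)} = Ev (fun F => Q F ∧ FarS N F) / Ev (FarS N) := by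
  unfold cl
  rw [measureReal_def, ProbabilityTheory.cond_apply (inc_FarS N).meas, ENNReal.toReal_mul,
    ENNReal.toReal_inv, div_eq_inv_mul]
  have e : {ω : sqLattice.edgeSet → Bool | FarS N (opn ω)} ∩ {ω | Q (opn ω)} =
      {ω | Q (opn ω) ∧ FarS N (opn ω)} := by
    ext ω
    simp only [Set.mem_inter_iff, Set.mem_ofPred_eq]
    exact and_comm
  rw [e]
  rfl

theorem cl_int (n N k : ℕ) :
    ∫ ω, (ms n (opn ω) : ℝ) ^ k ∂(cl N) = Mo n N k / Ev (FarS N) := by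
  classical
  unfold cl ProbabilityTheory.cond
  rw [integral_smul_measure, ENNReal.toReal_inv, smul_eq_mul, div_eq_inv_mul]
  congr 1
  rw [← integral_indicator (inc_FarS N).meas]
  unfold Mo
  apply integral_congr_ae
  refine Filter.Eventually.of_forall fun ω => ?_
  show Set.indicator {ω | FarS N (opn ω)} (fun ω => (ms n (opn ω) : ℝ) ^ k) ω =
    (ms n (opn ω) : ℝ) ^ k * ind (FarS N (opn ω))
  by_cases h : FarS N (opn ω)
  · rw [Set.indicator_of_mem (show ω ∈ {ω | FarS N (opn ω)} from h), ind_of h, mul_one]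
  · rw [Set.indicator_of_notMem (show ω ∉ {ω | FarS N (opn ω)} from h), ind_not_of h, mul_zero]

end Pool.Agent.D0H47.IC
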