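import Pool.Agent.Y244.PC.Tails

/-!
Critical bond percolation on the square lattice: events of the infinite lattice, gluing an arm of
the origin to a far vertex.
-/

set_option autoImplicit false

namespace Pool.Agent.D0H47.IC
open Finset H974 Pool.Agent.H160R2.CV Pool.Agent.H160R2.CV.Quad H362P MeasureTheory Filter
open Pool.Agent.H389R2.CD Pool.Agent.Y244.PC

/-- the probability of an event of the infinite lattice -/
noncomputable def Ev (Q : Set Edg → Prop) : ℝ := (bondLaw hlf).real {ω | Q (opn ω)}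

/-- increasing events which, when they occur, occur in a finite box -/
structure Inc (Q : Set Edg → Prop) : Prop where
  mono : ∀ F G, F ⊆ G → Q F → Q G
  box : ∀ F, Q F → ∃ m : ℕ, Q (F ∩ ↑(boxE m))

theorem Ev_nonneg (Q : Set Edg → Prop) : 0 ≤ Ev Q := measureReal_nonneg

theorem Ev_le_one (Q : Set Edg → Prop) : Ev Q ≤ 1 := measureReal_le_one

theorem Ev_mono {Q R : Set Edg → Prop} (h : ∀ F, Q F → R F) : Ev Q ≤ Ev R :=
  measureReal_mono (fun _ hω => h _ hω)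

theorem Inc.fin {Q : Set Edg → Prop} (hQ : Inc Q) (S : Finset Edg) :
    IncrE S (fun F => Q (↑F)) :=
  fun _ _ h _ hF => hQ.mono _ _ (by exact_mod_cast h) hF

theorem Inc.le {Q : Set Edg → Prop} (hQ : Inc Q) (m : ℕ) :
    Pr P (boxE m) (fun F => Q ↑F) ≤ Ev Q :=
  InfAux.lower Q hQ.mono m

theorem Inc.up {Q : Set Edg → Prop} (hQ : Inc Q) (c : ℝ)
    (h : ∀ m : ℕ, Pr P (boxE m) (fun F => Q ↑F) ≤ c) : Ev Q ≤ c :=
  InfAux.upper Q hQ.mono hQ.box c h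

theorem Inc.pr_mono {Q : Set Edg → Prop} (hQ : Inc Q) {m m' : ℕ} (h : m ≤ m') :
    Pr P (boxE m) (fun F => Q ↑F) ≤ Pr P (boxE m') (fun F => Q ↑F) :=
  Pr_mono_set Quad.okP (boxE_mono h) (hQ.fin _)

theorem Inc.and {Q R : Set Edg → Prop} (hQ : Inc Q) (hR : Inc R) : Inc (fun F => Q F ∧ R F) := by
  refine ⟨fun F G h hF => ⟨hQ.mono F G h hF.1, hR.mono F G h hF.2⟩, ?_⟩
  rintro F ⟨h1, h2⟩
  obtain ⟨m1, k1⟩ := hQ.box F h1
  obtain ⟨m2, k2⟩ := hR.box F h2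
  exact ⟨max m1 m2, hQ.mono _ _ (Set.inter_subset_inter_right _
    (InfAux.boxE_coe_mono (le_max_left _ _))) k1, hR.mono _ _ (Set.inter_subset_inter_right _
    (InfAux.boxE_coe_mono (le_max_right _ _))) k2⟩

theorem inc_reach (u v : Vtx) : Inc (fun F => Reach F u v) :=
  ⟨fun _ _ h hF => hF.mono h, fun _ hF => InfAux.reach_box hF⟩

theorem inc_Cn (X : Finset Vtx) : Inc (Cn X) :=
  ⟨fun _ _ h hF => hF.mono h, fun _ hF => Cn_box hF⟩

/-- the origin is connected to distance `N` -/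
def FarS (N : ℕ) (F : Set Edg) : Prop := ∃ v : Vtx, N ≤ nv v ∧ Reach F (0, 0) v

theorem inc_FarS (N : ℕ) : Inc (FarS N) := by
  refine ⟨fun F G h ⟨v, h1, h2⟩ => ⟨v, h1, h2.mono h⟩, ?_⟩
  rintro F ⟨v, h1, h2⟩
  obtain ⟨m, hm⟩ := InfAux.reach_box h2
  exact ⟨m, v, h1, hm⟩

theorem FarS_iff {N : ℕ} {F : Finset Edg} : FarS N ↑F ↔ Far (0, 0) N F := by
  unfold FarS Far
  constructor
  · rintro ⟨v, h1, h2⟩
    refine ⟨v, ?_, h2⟩
    have : v - (0, 0) = v := sub_zero v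
    rwa [this]
  · rintro ⟨v, h1, h2⟩
    refine ⟨v, ?_, h2⟩
    have : v - (0, 0) = v := sub_zero v
    rwa [this] at h1

theorem Inc.meas {Q : Set Edg → Prop} (hQ : Inc Q) :
    MeasurableSet {ω : sqLattice.edgeSet → Bool | Q (opn ω)} := by
  have e : {ω : sqLattice.edgeSet → Bool | Q (opn ω)} =
      ⋃ m : ℕ, {ω | (fun F : Finset Edg => Q ↑F) (FF (boxE m) ω)} := by
    ext ω
    rw [Set.mem_iUnion]
    constructor
    · intro hω
      obtain ⟨m, hm⟩ := hQ.box _ hω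
      refine ⟨m, ?_⟩
      show Q ↑(FF (boxE m) ω)
      rw [FF_coe]
      exact hm
    · rintro ⟨m, hm⟩
      have hm' : Q ↑(FF (boxE m) ω) := hm
      rw [FF_coe] at hm'
      exact hQ.mono _ _ Set.inter_subset_left hm'
  rw [e]
  exact MeasurableSet.iUnion fun m => meas_event (boxE m) (fun F : Finset Edg => Q ↑F)

/-- positive association with an increasing event of a finite box -/
theorem Inc.fkg {A Q : Set Edg → Prop} (hA : Inc A) (hQ : Inc Q) {n : ℕ} {p : ℝ} (hp : 0 ≤ p)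
    (h : p ≤ Pr P (boxE n) (fun F => A ↑F)) : p * Ev Q ≤ Ev (fun F => A F ∧ Q F) := by
  rcases hp.eq_or_lt with hp0 | hp0
  · rw [← hp0, zero_mul]
    exact Ev_nonneg _
  have h1 : Ev Q ≤ Ev (fun F => A F ∧ Q F) / p := by
    apply hQ.up
    intro m
    rw [le_div_iff₀ hp0, mul_comm]
    calc p * Pr P (boxE m) (fun F => Q ↑F)
        ≤ Pr P (boxE (n + m)) (fun F => A ↑F) * Pr P (boxE (n + m)) (fun F => Q ↑F) :=
          mul_le_mul (h.trans (hA.pr_mono (by omega))) (hQ.pr_mono (by omega))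
            (Pr_nonneg Quad.okP _ _) (Pr_nonneg Quad.okP _ _)
      _ ≤ Pr P (boxE (n + m)) (fun F => A ↑F ∧ Q ↑F) := Pr_harris Quad.okP (hA.fin _) (hQ.fin _)
      _ ≤ _ := (hA.and hQ).le _
  rw [le_div_iff₀ hp0, mul_comm] at h1
  exact h1

/-- gluing the arm of the origin to a far vertex -/
theorem glue {A : Finset Edg → Prop} {S : Finset Edg} (hA : IncrE S A) {z : Vtx} {r N : ℕ}
    (hr : 1 ≤ r) (hrN : 3 * r ≤ N) (hz : r ≤ nv z) (hS : boxE (nv z + 8 * nv z) ⊆ S) :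
    ((1 / 2 : ℝ) ^ 188 * (1 / 2 : ℝ) ^ 188) * (ar (8 * nv z) * barm (1 / 2) r (8 * nv z)) *
      Pr P S (fun F => A F ∧ Far (0, 0) N F) ≤ Pr P S (fun F => A F ∧ Reach (↑F) (0, 0) z) := by
  obtain ⟨a, ha⟩ : ∃ a, a = nv z := ⟨_, rfl⟩
  rw [← ha] at hz hS ⊢
  have ha1 : 1 ≤ a := by omega
  have h0z : nv ((0, 0) - z) = a := by
    rw [w_nv_comm]
    have : z - (0, 0) = z := sub_zero z
    rw [this, ha]
  have h00 : nv ((0, 0) : Vtx) = 0 := rfl
  set A1 := CA z (2 * a) (3 * (2 * a)) with hA1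
  set A2 := Far z (8 * a) with hA2
  set A3 := CA (0, 0) r (3 * r) with hA3
  set A4 := Ex1 (0, 0) r (8 * a) with hA4
  have h1 : (1 / 2 : ℝ) ^ 188 ≤ Pr P S A1 :=
    pr_CA (by omega) (bo_sub.trans ((boxE_mono (by omega)).trans hS))
  have h2 : ar (8 * a) ≤ Pr P S A2 :=
    far_ge (n := nv z) ((boxE_mono (by omega)).trans hS) (InfAux.mem_bx_nv z)
  have h3 : (1 / 2 : ℝ) ^ 188 ≤ Pr P S A3 :=
    pr_CA (by omega) (bo_sub.trans ((boxE_mono (by omega)).trans hS))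
  have h4 : barm (1 / 2) r (8 * a) ≤ Pr P S A4 :=
    pr_Ex1_ge (bo_sub.trans ((boxE_mono (by omega)).trans hS))
  have n1 : IncrE S A1 := CA_incr S _ _ _
  have n2 : IncrE S A2 := TwoAux.far_incr S _ _
  have n3 : IncrE S A3 := CA_incr S _ _ _
  have n4 : IncrE S A4 := Ex1_incr S _ _ _
  have n5 : IncrE S (fun F => A F ∧ Far (0, 0) N F) :=
    fun F G h h' hF => ⟨hA F G h h' hF.1, TwoAux.far_incr S _ _ F G h h' hF.2⟩
  have p0 : 0 ≤ Pr P S (fun F => A F ∧ Far (0, 0) N F) := Pr_nonneg Quad.okP _ _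
  have pa : 0 ≤ ar (8 * a) := (ar_pos _).le
  have pb : 0 ≤ barm (1 / 2) r (8 * a) := barm_nonneg (by norm_num) (by norm_num) _ _
  have q1 : 0 ≤ Pr P S A1 := Pr_nonneg Quad.okP _ _
  have q2 : 0 ≤ Pr P S A2 := Pr_nonneg Quad.okP _ _
  have q3 : 0 ≤ Pr P S A3 := Pr_nonneg Quad.okP _ _
  have q4 : 0 ≤ Pr P S A4 := Pr_nonneg Quad.okP _ _
  have i1 := Pr_harris Quad.okP n1 n2
  have i2 := Pr_harris Quad.okP (S := S) (A := fun F => A1 F ∧ A2 F) (B := A3)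
    (fun F G h h' hF => ⟨n1 F G h h' hF.1, n2 F G h h' hF.2⟩) n3
  have i3 := Pr_harris Quad.okP (S := S) (A := fun F => (A1 F ∧ A2 F) ∧ A3 F) (B := A4)
    (fun F G h h' hF => ⟨⟨n1 F G h h' hF.1.1, n2 F G h h' hF.1.2⟩, n3 F G h h' hF.2⟩) n4
  have i4 := Pr_harris Quad.okP (S := S) (A := fun F => ((A1 F ∧ A2 F) ∧ A3 F) ∧ A4 F)
    (B := fun F => A F ∧ Far (0, 0) N F)
    (fun F G h h' hF => ⟨⟨⟨n1 F G h h' hF.1.1.1, n2 F G h h' hF.1.1.2⟩, n3 F G h h' hF.1.2⟩,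
      n4 F G h h' hF.2⟩) n5
  have i5 : Pr P S (fun F => (((A1 F ∧ A2 F) ∧ A3 F) ∧ A4 F) ∧ (A F ∧ Far (0, 0) N F)) ≤
      Pr P S (fun F => A F ∧ Reach (↑F) (0, 0) z) := by
    apply Pr_mono Quad.okP
    rintro F _ ⟨⟨⟨⟨k1, t, ht, hxt⟩, k3⟩, k4⟩, kA, v, hv, h0v⟩
    obtain ⟨z1, hz1⟩ := CA_meet (by omega) k1
    obtain ⟨z', hz'⟩ := CA_meet (by omega) k3
    obtain ⟨u, w, hu, hw, huw⟩ := Ex1_out k4
    have m1 := hz1 z t (by rw [nv_self]; omega) (by omega) hxt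
    have t1 := nv_tri u (0, 0) z
    have t2 := nv_tri w z (0, 0)
    have t3 := w_nv_comm z (0, 0)
    have m2 := hz1 u w (by omega) (by omega) huw
    have m3 := hz' u w hu (by omega) huw
    have m4 := hz' (0, 0) v (by rw [nv_self]; omega) (by omega) h0v
    exact ⟨kA, m4.trans (m3.symm.trans (m2.trans m1.symm))⟩
  have j1 : (1 / 2 : ℝ) ^ 188 * ar (8 * a) ≤ Pr P S A1 * Pr P S A2 := mul_le_mul h1 h2 pa q1
  have j2 : (1 / 2 : ℝ) ^ 188 * ar (8 * a) * (1 / 2 : ℝ) ^ 188 ≤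
      Pr P S A1 * Pr P S A2 * Pr P S A3 := mul_le_mul j1 h3 (by positivity) (mul_nonneg q1 q2)
  have j3 : (1 / 2 : ℝ) ^ 188 * ar (8 * a) * (1 / 2 : ℝ) ^ 188 * barm (1 / 2) r (8 * a) ≤
      Pr P S A1 * Pr P S A2 * Pr P S A3 * Pr P S A4 :=
    mul_le_mul j2 h4 pb (mul_nonneg (mul_nonneg q1 q2) q3)
  calc ((1 / 2 : ℝ) ^ 188 * (1 / 2 : ℝ) ^ 188) * (ar (8 * a) * barm (1 / 2) r (8 * a)) *
        Pr P S (fun F => A F ∧ Far (0, 0) N F)
      = ((1 / 2 : ℝ) ^ 188 * ar (8 * a) * (1 / 2 : ℝ) ^ 188 * barm (1 / 2) r (8 * a)) *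
          Pr P S (fun F => A F ∧ Far (0, 0) N F) := by ring
    _ ≤ (Pr P S A1 * Pr P S A2 * Pr P S A3 * Pr P S A4) *
          Pr P S (fun F => A F ∧ Far (0, 0) N F) := mul_le_mul_of_nonneg_right j3 p0
    _ ≤ (Pr P S (fun F => A1 F ∧ A2 F) * Pr P S A3 * Pr P S A4) *
          Pr P S (fun F => A F ∧ Far (0, 0) N F) := by
        apply mul_le_mul_of_nonneg_right _ p0
        apply mul_le_mul_of_nonneg_right _ q4
        exact mul_le_mul_of_nonneg_right i1 q3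
    _ ≤ (Pr P S (fun F => (A1 F ∧ A2 F) ∧ A3 F) * Pr P S A4) *
          Pr P S (fun F => A F ∧ Far (0, 0) N F) := by
        apply mul_le_mul_of_nonneg_right _ p0
        exact mul_le_mul_of_nonneg_right i2 q4
    _ ≤ Pr P S (fun F => ((A1 F ∧ A2 F) ∧ A3 F) ∧ A4 F) *
          Pr P S (fun F => A F ∧ Far (0, 0) N F) := mul_le_mul_of_nonneg_right i3 p0
    _ ≤ _ := i4
    _ ≤ _ := i5

/-- the far vertex -/
def zz (N : ℕ) : Vtx := (4 * (N : ℤ), 0)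

theorem nv_zz (N : ℕ) : nv (zz N) = 4 * N := by
  unfold nv zz
  simp only
  omega

/-- an arm up to distance `N` costs at most `N ^ (5/48)` more than the connection to `zz N` is
worth -/
theorem glue_ev (hAr : ArSharp) : ∃ K : ℝ, 0 < K ∧ ∀ N : ℕ, 3 ≤ N → ∀ Q : Set Edg → Prop, Inc Q →
    Ev (fun F => Q F ∧ FarS N F) ≤
      K * (N : ℝ) ^ (5 / 48 : ℝ) * Ev (fun F => Q F ∧ Reach F (0, 0) (zz N)) := by
  obtain ⟨c0, C0, hc0, hC0, har⟩ := hAr
  set b : ℝ := (1 / 2 : ℝ) ^ 188 * (1 / 2 : ℝ) ^ 188 with hb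
  have hb0 : 0 < b := by positivity
  set g : ℝ := c0 ^ 2 / C0 * (32 : ℝ) ^ (-(5 / 24 : ℝ)) * (5 : ℝ) ^ (-(5 / 48 : ℝ)) with hg
  have hg0 : 0 < g := by positivity
  refine ⟨1 / (b * g), by positivity, fun N hN Q hQ => ?_⟩
  have hN0 : (0 : ℝ) < N := by exact_mod_cast (by omega : 0 < N)
  set r : ℕ := N / 3 with hr
  have hr1 : 1 ≤ r := by omega
  have hr3 : 3 * r ≤ N := by omega
  have hr5 : N ≤ 5 * r := by omega
  have hr0 : (0 : ℝ) < r := by exact_mod_cast hr1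
  have hnz : 8 * nv (zz N) = 32 * N := by rw [nv_zz]; ring
  have hbarm : g * (N : ℝ) ^ (-(5 / 48 : ℝ)) ≤ ar (32 * N) * barm (1 / 2) r (32 * N) := by
    have e1 := ar_split (r := r) (n := 32 * N) (by omega)
    have e2 := (har (32 * N) (by omega)).1
    have e3 := (har r hr1).2
    have p2 : 0 < ar r := ar_pos r
    have pb : 0 ≤ barm (1 / 2) r (32 * N) := barm_nonneg (by norm_num) (by norm_num) _ _
    have e4 : ar (32 * N) / (C0 * (r : ℝ) ^ (-(5 / 48 : ℝ))) ≤ barm (1 / 2) r (32 * N) := by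
      rw [div_le_iff₀ (by positivity)]
      refine (e1.trans (mul_le_mul_of_nonneg_right e3 pb)).trans (le_of_eq ?_)
      ring
    have e5 : (r : ℝ) ^ (-(5 / 48 : ℝ)) ≤ (5 : ℝ) ^ (5 / 48 : ℝ) * (N : ℝ) ^ (-(5 / 48 : ℝ)) := by
      have h1 : (N : ℝ) / 5 ≤ r := by
        rw [div_le_iff₀ (by norm_num)]
        have : (N : ℝ) ≤ 5 * r := by exact_mod_cast hr5
        linarith
      calc (r : ℝ) ^ (-(5 / 48 : ℝ)) ≤ ((N : ℝ) / 5) ^ (-(5 / 48 : ℝ)) :=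
            Real.rpow_le_rpow_of_nonpos (by positivity) h1 (by norm_num)
        _ = (5 : ℝ) ^ (5 / 48 : ℝ) * (N : ℝ) ^ (-(5 / 48 : ℝ)) := by
            rw [Real.div_rpow hN0.le (by norm_num), Real.rpow_neg (by norm_num : (0 : ℝ) ≤ 5)]
            field_simp
    have e6 : ((32 * N : ℕ) : ℝ) ^ (-(5 / 48 : ℝ)) =
        (32 : ℝ) ^ (-(5 / 48 : ℝ)) * (N : ℝ) ^ (-(5 / 48 : ℝ)) := by
      push_cast
      exact Real.mul_rpow (by norm_num) hN0.le
    rw [e6] at e2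
    set M : ℝ := (N : ℝ) ^ (-(5 / 48 : ℝ)) with hM
    have hM0 : 0 < M := by positivity
    set t : ℝ := (32 : ℝ) ^ (-(5 / 48 : ℝ)) with ht
    have ht0 : 0 < t := by positivity
    have e7 : ar (32 * N) * (ar (32 * N) / (C0 * ((5 : ℝ) ^ (5 / 48 : ℝ) * M))) ≤
        ar (32 * N) * barm (1 / 2) r (32 * N) := by
      apply mul_le_mul_of_nonneg_left _ (ar_pos _).le
      refine le_trans ?_ e4
      apply div_le_div_of_nonneg_left (ar_pos _).le (by positivity)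
      exact mul_le_mul_of_nonneg_left e5 hC0.le
    refine le_trans ?_ e7
    have e8 : g * M = (c0 * (t * M)) * ((c0 * (t * M)) / (C0 * ((5 : ℝ) ^ (5 / 48 : ℝ) * M))) := by
      have h24 : (32 : ℝ) ^ (-(5 / 24 : ℝ)) = t * t := by
        rw [ht, ← Real.rpow_add (by norm_num)]
        norm_num
      rw [hg, h24, Real.rpow_neg (by norm_num : (0 : ℝ) ≤ 5)]
      field_simp
    rw [e8]
    apply mul_le_mul e2 _ (by positivity) (ar_pos _).le
    exact div_le_div_of_nonneg_right e2 (by positivity)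
  have hinc1 : Inc (fun F => Q F ∧ FarS N F) := hQ.and (inc_FarS N)
  have hinc2 : Inc (fun F => Q F ∧ Reach F (0, 0) (zz N)) := hQ.and (inc_reach _ _)
  apply hinc1.up
  intro m
  have h1 := glue (A := fun F => Q ↑F) (S := boxE (36 * N + m)) (hQ.fin _) (z := zz N) (r := r)
    (N := N) hr1 hr3 (by rw [nv_zz]; omega) (boxE_mono (by rw [nv_zz]; omega))
  rw [hnz] at h1
  have e0 : Pr P (boxE (36 * N + m)) (fun F => Q ↑F ∧ FarS N ↑F) =
      Pr P (boxE (36 * N + m)) (fun F => Q ↑F ∧ Far (0, 0) N F) := by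
    apply Pr_congr
    intro F _
    rw [FarS_iff]
  refine (hinc1.pr_mono (m := m) (m' := 36 * N + m) (by omega)).trans ?_
  rw [e0]
  have h2 := hinc2.le (36 * N + m)
  have p0 : 0 ≤ Pr P (boxE (36 * N + m)) (fun F => Q ↑F ∧ Far (0, 0) N F) :=
    Pr_nonneg Quad.okP _ _
  have h3 : b * (g * (N : ℝ) ^ (-(5 / 48 : ℝ))) *
      Pr P (boxE (36 * N + m)) (fun F => Q ↑F ∧ Far (0, 0) N F) ≤
      Ev (fun F => Q F ∧ Reach F (0, 0) (zz N)) := by
    refine le_trans ?_ (h1.trans h2)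
    apply mul_le_mul_of_nonneg_right _ p0
    exact mul_le_mul_of_nonneg_left hbarm hb0.le
  have hpow : (N : ℝ) ^ (-(5 / 48 : ℝ)) * (N : ℝ) ^ (5 / 48 : ℝ) = 1 := by
    rw [← Real.rpow_add hN0]
    norm_num
  calc Pr P (boxE (36 * N + m)) (fun F => Q ↑F ∧ Far (0, 0) N F)
      = 1 / (b * g) * (N : ℝ) ^ (5 / 48 : ℝ) * (b * (g * (N : ℝ) ^ (-(5 / 48 : ℝ))) *
        Pr P (boxE (36 * N + m)) (fun F => Q ↑F ∧ Far (0, 0) N F)) := by
        have : 1 / (b * g) * (N : ℝ) ^ (5 / 48 : ℝ) * (b * (g * (N : ℝ) ^ (-(5 / 48 : ℝ)))) = 1 := by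
          calc _ = (1 / (b * g) * (b * g)) *
              ((N : ℝ) ^ (-(5 / 48 : ℝ)) * (N : ℝ) ^ (5 / 48 : ℝ)) := by ring
            _ = 1 := by rw [hpow]; field_simp
        rw [← mul_assoc, this, one_mul]
    _ ≤ _ := mul_le_mul_of_nonneg_left h3 (by positivity)

end Pool.Agent.D0H47.IC
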