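import Pool.Agent.D0H47.IC.UpLow

/-!
The joint law of the radius and of the volume of the cluster of the origin: clusters whose volume
is large for their radius.
-/

set_option autoImplicit false

namespace Pool.Agent.D0H47.IC
open Finset H974 Pool.Agent.H160R2.CV Pool.Agent.H160R2.CV.Quad H362P MeasureTheory Filter
open Pool.Agent.H389R2.CD Pool.Agent.Y244.PC

/-- the sum of the two-point function over the box -/
theorem sum0 (hAr : ArS) : ∃ C : ℝ, 0 < C ∧ ∀ n : ℕ, 1 ≤ n →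
    ∑ y ∈ bx n, PX (insert y {(0, 0)}) ≤ C * (n : ℝ) ^ (43 / 24 : ℝ) := by
  classical
  obtain ⟨c, C, hc, hC, h⟩ := two_point hAr
  refine ⟨1 + 96 * C, by positivity, fun n hn => ?_⟩
  have hn1 : (1 : ℝ) ≤ n := by exact_mod_cast hn
  have hn0 : (0 : ℝ) < n := by linarith
  set f : ℕ → ℝ := fun k => if 1 ≤ k then (k : ℝ) ^ (-(5 / 24 : ℝ)) else 0 with hf
  have hf0 : ∀ k, 0 ≤ f k := by
    intro k
    rw [hf]
    simp only
    split_ifs
    · positivity
    · exact le_rfl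
  have hfs : ∑ k ∈ range (2 * n + 1), ((k : ℝ) + 1) * f k ≤ 12 * (n : ℝ) ^ (43 / 24 : ℝ) := by
    have hterm : ∀ k ∈ range (2 * n + 1), ((k : ℝ) + 1) * f k ≤ 4 * (n : ℝ) ^ (19 / 24 : ℝ) := by
      intro k hk
      rw [Finset.mem_range] at hk
      rw [hf]
      simp only
      split_ifs with h1
      · have hk1 : (1 : ℝ) ≤ k := by exact_mod_cast h1
        have hk0 : (0 : ℝ) < k := by linarith
        have hk2 : (k : ℝ) ≤ 2 * n := by exact_mod_cast (by omega : k ≤ 2 * n)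
        have e1 : (k : ℝ) * (k : ℝ) ^ (-(5 / 24 : ℝ)) = (k : ℝ) ^ (19 / 24 : ℝ) := by
          rw [mul_comm, ← Real.rpow_add_one hk0.ne']
          congr 1
          norm_num
        have h4 : (k : ℝ) ^ (19 / 24 : ℝ) ≤ 2 * (n : ℝ) ^ (19 / 24 : ℝ) := by
          calc (k : ℝ) ^ (19 / 24 : ℝ) ≤ (2 * (n : ℝ)) ^ (19 / 24 : ℝ) :=
                Real.rpow_le_rpow hk0.le hk2 (by norm_num)
            _ = 2 ^ (19 / 24 : ℝ) * (n : ℝ) ^ (19 / 24 : ℝ) :=
                Real.mul_rpow (by norm_num) hn0.le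
            _ ≤ 2 ^ (1 : ℝ) * (n : ℝ) ^ (19 / 24 : ℝ) := by
                apply mul_le_mul_of_nonneg_right _ (by positivity)
                exact Real.rpow_le_rpow_of_exponent_le (by norm_num) (by norm_num)
            _ = _ := by rw [Real.rpow_one]
        have h5 : (0 : ℝ) ≤ (k : ℝ) ^ (-(5 / 24 : ℝ)) := by positivity
        nlinarith
      · rw [mul_zero]
        positivity
    calc ∑ k ∈ range (2 * n + 1), ((k : ℝ) + 1) * f k
        ≤ ∑ k ∈ range (2 * n + 1), 4 * (n : ℝ) ^ (19 / 24 : ℝ) := Finset.sum_le_sum hterm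
      _ = (2 * (n : ℝ) + 1) * (4 * (n : ℝ) ^ (19 / 24 : ℝ)) := by
          rw [Finset.sum_const, Finset.card_range, nsmul_eq_mul]
          push_cast
          ring
      _ ≤ (3 * (n : ℝ)) * (4 * (n : ℝ) ^ (19 / 24 : ℝ)) := by
          apply mul_le_mul_of_nonneg_right _ (by positivity)
          linarith
      _ = 12 * (n : ℝ) ^ (43 / 24 : ℝ) := by
          have : (43 / 24 : ℝ) = 19 / 24 + 1 := by norm_num
          rw [this, Real.rpow_add_one hn0.ne']
          ring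
  have hx : ((0, 0) : Vtx) ∈ bx n := by
    rw [w_mem_bx]
    simp
  have hpt : ∀ y ∈ bx n, PX (insert y {(0, 0)}) ≤
      (if y = (0, 0) then 1 else 0) + C * f (nv (y - (0, 0))) := by
    intro y _
    by_cases hxy : y = (0, 0)
    · rw [if_pos hxy, hxy, Finset.insert_eq_of_mem (Finset.mem_singleton_self _)]
      have h1 : PX {((0, 0) : Vtx)} = 1 := PX_singleton (0, 0)
      rw [h1]
      have := hf0 (nv ((0, 0) - (0, 0)))
      nlinarith
    · rw [if_neg hxy, zero_add]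
      have h1 := (h y (0, 0) hxy).2
      have h2 : 1 ≤ sd y (0, 0) := sd_pos hxy
      rw [hf]
      simp only
      rw [← sd_eq, if_pos h2]
      exact h1
  calc ∑ y ∈ bx n, PX (insert y {(0, 0)})
      ≤ ∑ y ∈ bx n, ((if y = (0, 0) then 1 else 0) + C * f (nv (y - (0, 0)))) :=
        Finset.sum_le_sum hpt
    _ = (∑ y ∈ bx n, if y = (0, 0) then (1 : ℝ) else 0) +
          C * ∑ y ∈ bx n, f (nv (y - (0, 0))) := by
        rw [Finset.sum_add_distrib, Finset.mul_sum]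
    _ ≤ 1 + C * (8 * (12 * (n : ℝ) ^ (43 / 24 : ℝ))) := by
        apply add_le_add
        · rw [Finset.sum_ite_eq' (bx n) (0, 0) (fun _ => (1 : ℝ)), if_pos hx]
        · apply mul_le_mul_of_nonneg_left _ hC.le
          refine (sum_bx_shift n (0, 0) hx f hf0).trans ?_
          linarith
    _ ≤ _ := by
        have : (1 : ℝ) ≤ (n : ℝ) ^ (43 / 24 : ℝ) := Real.one_le_rpow hn1 (by norm_num)
        nlinarith

theorem Im0_le (n k : ℕ) (X : Finset Vtx) : Im n 0 k X ≤ W n k X := by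
  classical
  induction k generalizing X with
  | zero =>
    rw [Im_zero]
    exact Ev_mono fun F hF => hF.1
  | succ k ih =>
    rw [Im_succ]
    exact Finset.sum_le_sum fun x _ => ih _

/-- the volume of the cluster in the box, upper bound -/
theorem vol_upper (hAr : ArSharp) : ∃ c C : ℝ, 0 < c ∧ 0 < C ∧ ∀ n : ℕ, 1 ≤ n → ∀ x : ℝ, 1 ≤ x →
    Ev (MsG n (x * (n : ℝ) ^ (91 / 48 : ℝ))) ≤
      C * Real.exp (-(c * x ^ (96 / 5 : ℝ))) * (n : ℝ) ^ (-(5 / 48 : ℝ)) := by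
  classical
  have hAr' : ArS := hAr
  obtain ⟨C1, hC1, h1⟩ := step_sum hAr'
  obtain ⟨C2, hC2, h2⟩ := sum0 hAr'
  set b : ℝ := 1 / (Real.exp 1 * C1) with hb
  have he := Real.exp_pos 1
  have hb0 : 0 < b := by positivity
  refine ⟨b ^ (96 / 5 : ℝ), C2 * Real.exp 4, by positivity, by positivity, fun n hn x hx => ?_⟩
  have hn0 : (0 : ℝ) < n := by exact_mod_cast hn
  have hx0 : 0 < x := by linarith
  set t : ℝ := (b * x) ^ (96 / 5 : ℝ) with ht
  have ht0 : 0 < t := by positivity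
  have htx : b ^ (96 / 5 : ℝ) * x ^ (96 / 5 : ℝ) = t := by
    rw [ht, Real.mul_rpow hb0.le hx0.le]
  rw [htx]
  -- `k + 1` points
  obtain ⟨k, hk1, hk2⟩ : ∃ k : ℕ, (k = 0 ∨ ((k + 2 : ℕ) : ℝ) ≤ t) ∧ t < (k : ℝ) + 3 := by
    refine ⟨⌊t⌋₊ - 2, ?_, ?_⟩
    · by_cases h3 : 2 ≤ ⌊t⌋₊
      · right
        have : ⌊t⌋₊ - 2 + 2 = ⌊t⌋₊ := by omega
        rw [this]
        exact Nat.floor_le ht0.le
      · left
        omega
    · have h4 := Nat.lt_floor_add_one t
      have h5 : (⌊t⌋₊ : ℝ) ≤ ((⌊t⌋₊ - 2 : ℕ) : ℝ) + 2 := by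
        exact_mod_cast (by omega : ⌊t⌋₊ ≤ ⌊t⌋₊ - 2 + 2)
      linarith
  set Y : ℝ := x * (n : ℝ) ^ (91 / 48 : ℝ) with hY
  have hY0 : 0 < Y := by positivity
  have hEv := Ev_nonneg (MsG n Y)
  have e0 : Ev (fun F => MsG n Y F ∧ FarS 0 F) = Ev (MsG n Y) := by
    apply le_antisymm
    · exact Ev_mono fun F hF => hF.1
    · exact Ev_mono fun F hF => ⟨hF, (0, 0), Nat.zero_le _, Reach.refl _ _⟩
  have h5 := markov n 0 (k + 1) hY0.le
  rw [e0] at h5
  have e1 : ∫ ω, (ms n (opn ω) : ℝ) ^ (k + 1) * ind (FarS 0 (opn ω)) ∂(bondLaw hlf) =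
      Im n 0 (k + 1) {(0, 0)} := by
    unfold Im
    apply integral_congr_ae
    refine Filter.Eventually.of_forall fun ω => ?_
    show (ms n (opn ω) : ℝ) ^ (k + 1) * ind (FarS 0 (opn ω)) =
      Vm n (opn ω) (k + 1) {(0, 0)} * ind (FarS 0 (opn ω))
    rw [Vm_eq n (opn ω) (k + 1) {(0, 0)} (Finset.mem_singleton_self _)]
    have : Cn {((0, 0) : Vtx)} (opn ω) := by
      intro u hu v hv
      rw [Finset.mem_singleton] at hu hv
      rw [hu, hv]
      exact Reach.refl _ _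
    rw [ind_of this, mul_one]
  rw [e1] at h5
  have h6 := h5.trans (Im0_le n (k + 1) {(0, 0)})
  set B : ℝ := C1 * ((n : ℝ) ^ (91 / 48 : ℝ) * ((k + 2 : ℕ) : ℝ) ^ (5 / 96 : ℝ)) with hB
  have hB0 : 0 ≤ B := by positivity
  have h00 : ((0, 0) : Vtx) ∈ bx n := by
    rw [w_mem_bx]
    simp
  have h7 : W n (k + 1) {(0, 0)} ≤ B ^ k * (C2 * (n : ℝ) ^ (43 / 24 : ℝ)) := by
    show ∑ x ∈ bx n, W n k (insert x {(0, 0)}) ≤ _
    calc ∑ x ∈ bx n, W n k (insert x {(0, 0)})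
        ≤ ∑ x ∈ bx n, B ^ k * PX (insert x {(0, 0)}) := by
          apply Finset.sum_le_sum
          intro x hx'
          apply W_bound hC1 hn (h1 n hn) k _ (k + 2) (Finset.insert_nonempty _ _)
          · exact Finset.insert_subset hx' (Finset.singleton_subset_iff.mpr h00)
          · have e1 := Finset.card_insert_le x {((0, 0) : Vtx)}
            rw [Finset.card_singleton] at e1
            omega
      _ = B ^ k * ∑ x ∈ bx n, PX (insert x {(0, 0)}) := by rw [Finset.mul_sum]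
      _ ≤ _ := mul_le_mul_of_nonneg_left (h2 n hn) (by positivity)
  have h8 : B ^ k ≤ (Y * Real.exp (-1)) ^ k := by
    rcases hk1 with hk1 | hk1
    · rw [hk1, pow_zero, pow_zero]
    · apply pow_le_pow_left₀ hB0
      have h9 : ((k + 2 : ℕ) : ℝ) ^ (5 / 96 : ℝ) ≤ b * x := by
        calc ((k + 2 : ℕ) : ℝ) ^ (5 / 96 : ℝ) ≤ t ^ (5 / 96 : ℝ) :=
              Real.rpow_le_rpow (by positivity) hk1 (by norm_num)
          _ = b * x := by
              rw [ht, ← Real.rpow_mul (by positivity)]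
              norm_num
      calc B ≤ C1 * ((n : ℝ) ^ (91 / 48 : ℝ) * (b * x)) := by
            apply mul_le_mul_of_nonneg_left _ hC1.le
            exact mul_le_mul_of_nonneg_left h9 (by positivity)
        _ = Y * Real.exp (-1) := by
            rw [hY, hb, Real.exp_neg]
            field_simp
  have h10 : (n : ℝ) ^ (43 / 24 : ℝ) ≤ Y * (n : ℝ) ^ (-(5 / 48 : ℝ)) := by
    have e2 : (n : ℝ) ^ (43 / 24 : ℝ) = (n : ℝ) ^ (91 / 48 : ℝ) * (n : ℝ) ^ (-(5 / 48 : ℝ)) := by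
      rw [← Real.rpow_add hn0]
      norm_num
    rw [e2]
    apply mul_le_mul_of_nonneg_right _ (by positivity)
    rw [hY]
    have : (0 : ℝ) ≤ (n : ℝ) ^ (91 / 48 : ℝ) := by positivity
    nlinarith
  have h11 : Y ^ (k + 1) * Ev (MsG n Y) ≤
      Y ^ (k + 1) * (C2 * Real.exp (-1) ^ k * (n : ℝ) ^ (-(5 / 48 : ℝ))) := by
    calc Y ^ (k + 1) * Ev (MsG n Y) ≤ B ^ k * (C2 * (n : ℝ) ^ (43 / 24 : ℝ)) := h6.trans h7
      _ ≤ (Y * Real.exp (-1)) ^ k * (C2 * (Y * (n : ℝ) ^ (-(5 / 48 : ℝ)))) := by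
          apply mul_le_mul h8 _ (by positivity) (by positivity)
          exact mul_le_mul_of_nonneg_left h10 hC2.le
      _ = _ := by rw [mul_pow]; ring
  have h12 : Ev (MsG n Y) ≤ C2 * Real.exp (-1) ^ k * (n : ℝ) ^ (-(5 / 48 : ℝ)) :=
    le_of_mul_le_mul_left h11 (by positivity)
  refine h12.trans ?_
  apply mul_le_mul_of_nonneg_right _ (by positivity)
  rw [mul_assoc]
  apply mul_le_mul_of_nonneg_left _ hC2.le
  rw [← Real.exp_nat_mul, ← Real.exp_add]
  apply Real.exp_le_exp.mpr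
  linarith

/-! ### confinement -/

theorem confine (hAr : ArS) : ∃ l : ℕ, 3 ≤ l ∧ ∀ r : ℕ, 1 ≤ r → barm (1 / 2) r (l * r) ≤ 1 / 2 := by
  obtain ⟨C, hC, h⟩ := barm_le hAr
  obtain ⟨l, hl⟩ := exists_nat_ge ((2 * C) ^ (48 / 5 : ℝ) + 3)
  have hp : 0 ≤ (2 * C) ^ (48 / 5 : ℝ) := by positivity
  have hl3 : 3 ≤ l := by
    have : (3 : ℝ) ≤ l := by linarith
    exact_mod_cast this
  refine ⟨l, hl3, fun r hr => ?_⟩
  have hr0 : (0 : ℝ) < r := by exact_mod_cast hr
  have hl0 : (0 : ℝ) < l := by linarith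
  refine (h r (l * r) hr (Nat.mul_le_mul_right r hl3)).trans ?_
  have e : (r : ℝ) / ((l * r : ℕ) : ℝ) = 1 / l := by
    push_cast
    field_simp
  rw [e, one_div, Real.inv_rpow hl0.le]
  have h2 : 2 * C ≤ (l : ℝ) ^ ((5 : ℝ) / 48) := by
    calc 2 * C = ((2 * C) ^ (48 / 5 : ℝ)) ^ ((5 : ℝ) / 48) := by
          rw [← Real.rpow_mul (by positivity)]
          norm_num
      _ ≤ (l : ℝ) ^ ((5 : ℝ) / 48) := Real.rpow_le_rpow hp (by linarith) (by norm_num)
  have h3 : (0 : ℝ) < (l : ℝ) ^ ((5 : ℝ) / 48) := by positivity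
  rw [← div_eq_mul_inv, div_le_iff₀ h3]
  linarith

/-- a local event which implies the event of the infinite lattice -/
theorem Ev_ge_local {D : Finset Edg → Prop} {Q : Set Edg → Prop} (m : ℕ)
    (h : ∀ F : Set Edg, ∀ G : Finset Edg, (↑G : Set Edg) = F ∩ ↑(boxE m) → D G → Q F) :
    Pr P (boxE m) D ≤ Ev Q := by
  have h1 := law_event hlf (boxE m) D
  have h2 : Pr P (boxE m) D = (bondLaw hlf).real {ω | D (FF (boxE m) ω)} := h1.symm
  rw [h2]
  exact measureReal_mono (fun ω hω => h _ _ (FF_coe _ _) hω)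

end Pool.Agent.D0H47.IC
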