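import Pool.Agent.D0H47.IC.Joint

/-!
Lower bound for the probability that the cluster of the origin stays in a box and has a large
volume.
-/

set_option autoImplicit false

namespace Pool.Agent.D0H47.IC
open Finset H974 Pool.Agent.H160R2.CV Pool.Agent.H160R2.CV.Quad H362P MeasureTheory Filter
open Pool.Agent.H389R2.CD Pool.Agent.Y244.PC

theorem bo_zero (m : ℕ) : bo (0, 0) m = boxE m := by
  unfold bo boxE
  simp only [zero_sub, zero_add]

theorem FarS_box {N : ℕ} {F : Set Edg} (h : FarS N F) : FarS N (F ∩ ↑(boxE N)) := by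
  obtain ⟨v, hv, hr⟩ := h
  obtain ⟨w, k1, k2, k3⟩ := first_exit (a := -(N : ℤ)) (b := N) (c := -(N : ℤ)) (d := N)
    (by unfold inR; simp) hr (by
      unfold nv at hv
      omega)
  refine ⟨w, ?_, k3⟩
  unfold nv
  omega

theorem FarS_mono {N M : ℕ} (h : N ≤ M) {F : Set Edg} (hF : FarS M F) : FarS N F := by
  obtain ⟨v, hv, hr⟩ := hF
  exact ⟨v, h.trans hv, hr⟩

/-- everything open in the box and nothing else -/
theorem full_only {n : ℕ} (hn : 1 ≤ n) {y : ℝ} (hy : y ≤ (2 * (n : ℝ) + 1) ^ 2) :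
    Real.exp (-(72 * (n : ℝ) ^ 2)) ≤ Ev (fun F => MsG n y F ∧ ¬ FarS (n + 1) F) := by
  have h1 := extreme_prob (n := n + 1) (by omega) (boxE_mono (by omega : n ≤ n + 1))
    (A := fun F => F = boxE n) rfl
  have h2 : Real.exp (-(72 * (n : ℝ) ^ 2)) ≤ Real.exp (-(18 * ((n + 1 : ℕ) : ℝ) ^ 2)) := by
    apply Real.exp_le_exp.mpr
    have hn1 : (1 : ℝ) ≤ n := by exact_mod_cast hn
    push_cast
    nlinarith
  refine h2.trans (h1.trans ?_)
  apply Ev_ge_local (n + 1)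
  intro F G hG hGe
  rw [hGe] at hG
  have hsub : (↑(boxE n) : Set Edg) ⊆ F := by
    rw [hG]
    exact Set.inter_subset_left
  constructor
  · show y ≤ (ms n F : ℝ)
    refine hy.trans ?_
    rw [← w_card_bx]
    have hmono : (↑(boxE n) ∩ ↑(boxE n) : Set Edg) ⊆ F :=
      fun e he => hsub he.1
    have hbig : ∀ u ∈ bx n, Reach F (-(n : ℤ), -(n : ℤ)) u := by
      rintro ⟨x, y⟩ hu
      rw [w_mem_bx] at hu
      simp only at hu
      have h1 := full_col (n := n) (y + n).toNat (by omega)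
      have h2 := full_row (n := n) hu.2 (x + n).toNat (by omega)
      have e1 : -(n : ℤ) + ((y + n).toNat : ℤ) = y := by omega
      have e2 : -(n : ℤ) + ((x + n).toNat : ℤ) = x := by omega
      rw [e1] at h1
      rw [e2] at h2
      exact (h1.trans h2).mono hmono
    have h0b : ((0, 0) : Vtx) ∈ bx n := by
      rw [w_mem_bx]
      simp
    exact_mod_cast ms_ge_of (Finset.Subset.refl _) fun u hu => (hbig _ h0b).symm.trans (hbig u hu)
  · intro hF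
    obtain ⟨w, hw, hr⟩ := FarS_box hF
    rw [← hG] at hr
    have h0b : ((0, 0) : Vtx) ∈ bx n := by
      rw [w_mem_bx]
      simp
    have h3 : Reach ((↑(boxE n) : Set Edg) ∩ ↑(boxE n)) (0, 0) w := by
      rw [Set.inter_self]
      exact hr
    have h4 := w_reach_bx h0b h3
    rw [w_mem_bx] at h4
    unfold nv at hw
    omega

/-- the grid, the counts, an arm of the origin, and confinement -/
theorem grid_conf (hAr : ArS) : ∃ (l : ℕ) (a c : ℝ), 3 ≤ l ∧ 0 < a ∧ 0 < c ∧ c < 1 ∧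
    ∀ n n1 m k : ℕ, 1 ≤ m → 1 ≤ k → m * (4 * k + 3) + 2 * m ≤ n1 → l * n1 ≤ n →
    c ^ ((2 * k + 1) ^ 2) * (ar n1 / 2) ≤ Ev (fun F =>
      MsG n (((2 * k + 1 : ℕ) : ℝ) ^ 2 * (a * ((m : ℝ) ^ 2 * ar m))) F ∧ ¬ FarS (n + 1) F) := by
  obtain ⟨l, hl3, hl⟩ := confine hAr
  obtain ⟨a, c, ha, hc, h⟩ := count_lower
  have hc1 : c ≤ 1 := (h 1 le_rfl _ (Finset.Subset.refl _)).trans (Pr_le_one w_ok _ _)
  obtain ⟨b, hb⟩ : ∃ b : ℝ, b = 1 / 2 := ⟨_, rfl⟩
  have hb0 : 0 < b := by rw [hb]; norm_num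
  have hb1 : b < 1 := by rw [hb]; norm_num
  have hbp : 0 < b ^ 1316 := pow_pos hb0 _
  have hbp1 : b ^ 1316 < 1 := pow_lt_one₀ hb0.le hb1 (by norm_num)
  obtain ⟨d, hd⟩ : ∃ d : ℝ, d = b ^ 1316 := ⟨_, rfl⟩
  rw [← hd] at hbp hbp1
  refine ⟨l, a, c * d, hl3, ha, mul_pos hc hbp, by nlinarith, ?_⟩
  intro n n1 m k hm hk1 hmn hln
  obtain ⟨n', hn'⟩ : ∃ n', n' = m * (4 * k + 3) := ⟨_, rfl⟩
  rw [← hn'] at hmn
  obtain ⟨K, hKe⟩ : ∃ K, K = 2 * k + 1 := ⟨_, rfl⟩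
  have hK : 4 * m * K + 2 * m ≤ 2 * n' := by
    rw [hn', hKe]
    nlinarith
  have hK2 : 2 * n' ≤ 8 * m + 12 * m * K := by
    rw [hn', hKe]
    nlinarith
  have h4m : 4 * m ≤ n1 := by
    have : 4 * m ≤ n' := by rw [hn']; nlinarith
    omega
  have hn1l : n1 ≤ l * n1 := Nat.le_mul_of_pos_left _ (by omega)
  have hn11 : 1 ≤ n1 := by omega
  have hK1 : 1 ≤ K := by omega
  have hn0 : 0 < n' := by rw [hn']; positivity
  obtain ⟨q0, hq0⟩ : ∃ q0 : ℝ, q0 = b ^ (141 * (2 * K) + 47) := ⟨_, rfl⟩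
  have hq00 : 0 ≤ q0 := by rw [hq0]; exact pow_nonneg hb0.le _
  have hstrip : q0 ≤ hh (1 / 2) (2 * (n' : ℤ)) (2 * m) := by
    rw [hq0, hb]
    apply hh_long (m := m) (by exact_mod_cast hm) (2 * K) (by omega) _ le_rfl
    push_cast
    have : (2 * (n' : ℤ)) ≤ 8 * m + 12 * m * K := by exact_mod_cast hK2
    linarith
  have k3 := pow_bound hK1 hb0.le hb1.le
  rw [← hd, ← hq0] at k3
  rw [← hKe]
  have hsub : boxE n' ⊆ boxE n1 := boxE_mono (by omega)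
  have hsub2 : boxE (n' + 2 * m) ⊆ boxE n1 := boxE_mono hmn
  have hall := fkg_all (n := n') (m := m) (K := K) (S := boxE n1) (a := a) hc.le hq00
    (fun i hi => by
      rw [strip_LR hK (by rw [Finset.mem_range] at hi; omega) hsub]
      exact hstrip)
    (fun i hi => by
      rw [strip_TB hK (by rw [Finset.mem_range] at hi; omega) hsub]
      exact hstrip)
    (fun q hq => by
      rw [Finset.mem_product, Finset.mem_range, Finset.mem_range] at hq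
      exact pr_CtAt (h m hm) ((cen_bo hK hq.1 hq.2).trans hsub2))
  have hinc : IncrE (boxE n1) (fun F => Grid n' m K F ∧
      ∀ q ∈ range K ×ˢ range K, CtAt (cen n' m q.1 q.2) a m F) := by
    rintro F G hFG hG ⟨⟨g1, g2⟩, g3⟩
    exact ⟨⟨fun i hi => (g1 i hi).mono hFG, fun i hi => (g2 i hi).mono hFG⟩,
      fun q hq => CtAt_incr (boxE n1) _ _ _ F G hFG hG (g3 q hq)⟩
  have hh2 := Pr_harris w_ok hinc ((inc_FarS n1).fin (boxE n1))
  have hlow : (c * d) ^ (K ^ 2) ≤ Pr P (boxE n1) (fun F => Grid n' m K F ∧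
      ∀ q ∈ range K ×ˢ range K, CtAt (cen n' m q.1 q.2) a m F) := by
    refine le_trans ?_ hall
    calc (c * d) ^ (K ^ 2) = d ^ (K ^ 2) * c ^ (K * K) := by rw [mul_pow, mul_comm, pow_two K]
      _ ≤ q0 ^ (K + 1) * q0 ^ (K + 1) * c ^ (K * K) :=
          mul_le_mul_of_nonneg_right k3 (pow_nonneg hc.le _)
  set D1 : Finset Edg → Prop := fun F => (Grid n' m K F ∧
      ∀ q ∈ range K ×ˢ range K, CtAt (cen n' m q.1 q.2) a m F) ∧ FarS n1 ↑F with hD1
  have hin : (c * d) ^ (K ^ 2) * ar n1 ≤ Pr P (boxE n1) D1 := by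
    refine le_trans ?_ hh2
    exact mul_le_mul hlow (pr_FarS_ge le_rfl) (ar_pos _).le (Pr_nonneg w_ok _ _)
  set D : Finset Edg → Prop := fun F => D1 (F ∩ boxE n1) ∧ ¬ Cr (0, 0) n1 (l * n1) F with hD
  have hU1 : boxE n1 ⊆ boxE (n + 1) := boxE_mono (by omega)
  have hU2 : bo (0, 0) (l * n1) \ bo (0, 0) n1 ⊆ boxE (n + 1) := by
    rw [bo_zero, bo_zero]
    exact Finset.sdiff_subset.trans (boxE_mono (by omega))
  have hdis : Disjoint (boxE n1) (bo (0, 0) (l * n1) \ bo (0, 0) n1) := by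
    rw [bo_zero n1]
    exact Finset.disjoint_sdiff
  have hind : Pr P (boxE (n + 1)) D = Pr P (boxE (n + 1)) (fun F => D1 (F ∩ boxE n1)) *
      Pr P (boxE (n + 1)) (fun F => ¬ Cr (0, 0) n1 (l * n1) F) := by
    apply Pr_indep hU1 hU2 hdis
    · intro F _
      rw [Finset.inter_assoc, Finset.inter_self]
    · intro F _
      rw [Cr_loc F]
  have e1 : Pr P (boxE (n + 1)) (fun F => D1 (F ∩ boxE n1)) = Pr P (boxE n1) D1 := by
    have e2 : Pr P (boxE (n + 1)) (fun F => D1 (F ∩ boxE n1)) =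
        Pr P (boxE n1) (fun F => D1 (F ∩ boxE n1)) :=
      Pr_local hU1 (A := fun F => D1 (F ∩ boxE n1)) (fun F _ => by
        rw [Finset.inter_assoc, Finset.inter_self])
    rw [e2]
    apply Pr_congr
    intro F hF
    rw [Finset.inter_eq_left.mpr hF]
  have e3 : 1 / 2 ≤ Pr P (boxE (n + 1)) (fun F => ¬ Cr (0, 0) n1 (l * n1) F) := by
    rw [Pr_not]
    have h5 := pr_Cr (boxE (n + 1)) (0, 0) n1 (l * n1)
    have h6 := hl n1 hn11
    linarith
  have hfin : (c * d) ^ (K ^ 2) * (ar n1 / 2) ≤ Pr P (boxE (n + 1)) D := by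
    rw [hind, e1]
    calc (c * d) ^ (K ^ 2) * (ar n1 / 2) = ((c * d) ^ (K ^ 2) * ar n1) * (1 / 2) := by ring
      _ ≤ _ := mul_le_mul hin e3 (by norm_num) (Pr_nonneg w_ok _ _)
  refine hfin.trans ?_
  apply Ev_ge_local (n + 1)
  rintro F G hG ⟨⟨⟨hGr, hCt⟩, hFar⟩, hCr⟩
  have hsubF : (↑(G ∩ boxE n1) : Set Edg) ⊆ F := by
    rw [Finset.coe_inter, hG]
    exact fun e he => he.1.1
  constructor
  · show _ ≤ (ms n F : ℝ)
    have hfar : Far (0, 0) (4 * m) (G ∩ boxE n1) := FarS_iff.mp (FarS_mono h4m hFar)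
    subst hKe
    have h7 := grid_ms (n := n) hm hn' (by omega) hGr hCt hfar
    exact h7.trans (by exact_mod_cast ms_mono hsubF)
  · intro hF
    apply hCr
    have h8 := FarS_box hF
    rw [← hG] at h8
    exact Cr_of_far (FarS_iff.mp (FarS_mono (by omega) h8))

/-- clusters of large volume in the box -/
theorem joint_lower (hAr : ArSharp) : ∃ C : ℝ, 0 < C ∧ ∀ n : ℕ, 1 ≤ n → ∀ x : ℝ, 1 ≤ x →
    x * (n : ℝ) ^ (91 / 48 : ℝ) ≤ (2 * (n : ℝ) + 1) ^ 2 →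
    Real.exp (-(C * x ^ (96 / 5 : ℝ))) * (n : ℝ) ^ (-(5 / 48 : ℝ)) ≤
      Ev (fun F => MsG n (x * (n : ℝ) ^ (91 / 48 : ℝ)) F ∧ ¬ FarS (n + 1) F) := by
  obtain ⟨l, a, c, hl3, ha, hc, hc1, hg⟩ := grid_conf hAr
  obtain ⟨c0, C0, hc0, hC0, har⟩ := hAr
  have hl0 : (0 : ℝ) < l := by exact_mod_cast (by omega : 0 < l)
  set a1 : ℝ := a * c0 * (12 * (l : ℝ)) ^ (-(91 / 48 : ℝ)) with ha1
  have ha10 : 0 < a1 := by positivity
  set B : ℝ := 2 * (1 / a1) ^ (48 / 5 : ℝ) + 5 with hB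
  have hB0 : 0 < B := by positivity
  have hlog : 0 < -Real.log c := by
    have := Real.log_neg hc hc1
    linarith
  set E0 : ℝ := |Real.log (c0 / 2)| with hE0
  have hE00 : 0 ≤ E0 := abs_nonneg _
  refine ⟨-Real.log c * B ^ 2 + E0 + 72 * (9 * l ^ 2 * B ^ 2), by positivity,
    fun n hn x hx hxn => ?_⟩
  have hn0 : (0 : ℝ) < n := by exact_mod_cast hn
  have hn1' : (1 : ℝ) ≤ n := by exact_mod_cast hn
  have hx0 : 0 < x := by linarith
  set k : ℕ := ⌈(x / a1) ^ (48 / 5 : ℝ)⌉₊ with hk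
  have hk1 : 1 ≤ k := by
    rw [hk, Nat.one_le_ceil_iff]
    positivity
  set K : ℕ := 2 * k + 1 with hKdef
  have hKx : (x / a1) ^ (48 / 5 : ℝ) ≤ K := by
    refine (Nat.le_ceil _).trans ?_
    rw [← hk, hKdef]
    exact_mod_cast (by omega : k ≤ 2 * k + 1)
  have hxp : (1 : ℝ) ≤ x ^ (48 / 5 : ℝ) := Real.one_le_rpow hx (by norm_num)
  have hKB : (K : ℝ) ≤ B * x ^ (48 / 5 : ℝ) := by
    have h1 : (k : ℝ) < (x / a1) ^ (48 / 5 : ℝ) + 1 := Nat.ceil_lt_add_one (by positivity)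
    have h2 : (x / a1) ^ (48 / 5 : ℝ) = (1 / a1) ^ (48 / 5 : ℝ) * x ^ (48 / 5 : ℝ) := by
      rw [← Real.mul_rpow (by positivity) hx0.le]
      congr 1
      ring
    rw [h2] at h1
    rw [hB, hKdef]
    push_cast
    nlinarith
  have hxx : (x ^ (48 / 5 : ℝ)) ^ 2 = x ^ (96 / 5 : ℝ) := by
    rw [rpow_sq' hx0.le]
    norm_num
  have hK2 : ((K ^ 2 : ℕ) : ℝ) ≤ B ^ 2 * x ^ (96 / 5 : ℝ) := by
    rw [← hxx, ← mul_pow]
    push_cast
    exact pow_le_pow_left₀ (by positivity) hKB 2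
  have hxq : (1 : ℝ) ≤ x ^ (96 / 5 : ℝ) := Real.one_le_rpow hx (by norm_num)
  have hxq0 : (0 : ℝ) ≤ x ^ (96 / 5 : ℝ) := by linarith
  set n1 : ℕ := n / l with hn1
  have hln : l * n1 ≤ n := Nat.mul_div_le _ _
  have hln2 : n < (n1 + 1) * l := Nat.lt_mul_of_div_lt (Nat.lt_succ_self _) (by omega)
  have hnp : (n : ℝ) ^ (-(5 / 48 : ℝ)) ≤ 1 :=
    Real.rpow_le_one_of_one_le_of_nonpos hn1' (by norm_num)
  have hnp0 : (0 : ℝ) < (n : ℝ) ^ (-(5 / 48 : ℝ)) := by positivity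
  by_cases hcase : 4 * k + 5 ≤ n1
  · -- grid
    set m : ℕ := n1 / (4 * k + 5) with hm
    have hm1 : 1 ≤ m := by
      rw [hm, Nat.le_div_iff_mul_le (by omega)]
      omega
    have hm2 : m * (4 * k + 5) ≤ n1 := Nat.div_mul_le_self _ _
    have hm3 : n1 < (m + 1) * (4 * k + 5) := by
      rw [hm]
      exact Nat.lt_mul_of_div_lt (Nat.lt_succ_self _) (by omega)
    have h5 : n1 ≤ 6 * K * m := by
      rw [hKdef]
      nlinarith
    have h6 : n ≤ 12 * l * (K * m) := by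
      have : n ≤ 2 * n1 * l := by nlinarith
      nlinarith
    have h7 := hg n n1 m k hm1 hk1 (by nlinarith) hln
    have hm0 : (0 : ℝ) < m := by exact_mod_cast hm1
    have hK0 : (0 : ℝ) < K := by exact_mod_cast (by omega : 0 < K)
    have h8 : x * (n : ℝ) ^ (91 / 48 : ℝ) ≤ (K : ℝ) ^ 2 * (a * ((m : ℝ) ^ 2 * ar m)) := by
      have h9 : x ≤ a1 * (K : ℝ) ^ (5 / 48 : ℝ) := by
        have h10 : ((x / a1) ^ (48 / 5 : ℝ)) ^ (5 / 48 : ℝ) ≤ (K : ℝ) ^ (5 / 48 : ℝ) :=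
          Real.rpow_le_rpow (by positivity) hKx (by norm_num)
        rw [← Real.rpow_mul (by positivity)] at h10
        norm_num at h10
        rwa [div_le_iff₀ ha10, mul_comm] at h10
      have h11 : (n : ℝ) ^ (91 / 48 : ℝ) ≤ (12 * (l : ℝ)) ^ (91 / 48 : ℝ) *
          (K : ℝ) ^ (91 / 48 : ℝ) * (m : ℝ) ^ (91 / 48 : ℝ) := by
        rw [← Real.mul_rpow (by positivity) (by positivity),
          ← Real.mul_rpow (by positivity) (by positivity)]
        apply Real.rpow_le_rpow hn0.le _ (by norm_num)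
        have : (n : ℝ) ≤ 12 * l * (K * m) := by exact_mod_cast h6
        linarith
      have h12 : (m : ℝ) ^ 2 * ar m ≥ c0 * (m : ℝ) ^ (91 / 48 : ℝ) := by
        have h13 := (har m hm1).1
        have h14 : (m : ℝ) ^ (91 / 48 : ℝ) = (m : ℝ) ^ 2 * (m : ℝ) ^ (-(5 / 48 : ℝ)) := by
          rw [← Real.rpow_natCast (m : ℝ) 2, ← Real.rpow_add hm0]
          norm_num
        rw [h14]
        have : (0 : ℝ) ≤ (m : ℝ) ^ 2 := by positivity
        nlinarith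
      have h15 : (K : ℝ) ^ (5 / 48 : ℝ) * (K : ℝ) ^ (91 / 48 : ℝ) = (K : ℝ) ^ 2 := by
        rw [← Real.rpow_add hK0, ← Real.rpow_natCast (K : ℝ) 2]
        norm_num
      have h16 : (12 * (l : ℝ)) ^ (-(91 / 48 : ℝ)) * (12 * (l : ℝ)) ^ (91 / 48 : ℝ) = 1 := by
        rw [← Real.rpow_add (by positivity)]
        norm_num
      calc x * (n : ℝ) ^ (91 / 48 : ℝ)
          ≤ (a1 * (K : ℝ) ^ (5 / 48 : ℝ)) * ((12 * (l : ℝ)) ^ (91 / 48 : ℝ) *
            (K : ℝ) ^ (91 / 48 : ℝ) * (m : ℝ) ^ (91 / 48 : ℝ)) :=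
            mul_le_mul h9 h11 (by positivity) (by positivity)
        _ = (12 * (l : ℝ)) ^ (-(91 / 48 : ℝ)) * (12 * (l : ℝ)) ^ (91 / 48 : ℝ) *
            ((K : ℝ) ^ (5 / 48 : ℝ) * (K : ℝ) ^ (91 / 48 : ℝ)) *
            (a * (c0 * (m : ℝ) ^ (91 / 48 : ℝ))) := by rw [ha1]; ring
        _ = (K : ℝ) ^ 2 * (a * (c0 * (m : ℝ) ^ (91 / 48 : ℝ))) := by rw [h16, h15, one_mul]
        _ ≤ _ := by
          apply mul_le_mul_of_nonneg_left _ (by positivity)
          exact mul_le_mul_of_nonneg_left h12 ha.le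
    have h17 : Ev (fun F => MsG n ((K : ℝ) ^ 2 * (a * ((m : ℝ) ^ 2 * ar m))) F ∧
        ¬ FarS (n + 1) F) ≤
        Ev (fun F => MsG n (x * (n : ℝ) ^ (91 / 48 : ℝ)) F ∧ ¬ FarS (n + 1) F) :=
      Ev_mono fun F hF => ⟨h8.trans hF.1, hF.2⟩
    refine le_trans ?_ (h7.trans h17)
    have h18 : c0 / 2 * (n : ℝ) ^ (-(5 / 48 : ℝ)) ≤ ar n1 / 2 := by
      have h19 := (har n1 (by omega)).1
      have h20 : (n : ℝ) ^ (-(5 / 48 : ℝ)) ≤ (n1 : ℝ) ^ (-(5 / 48 : ℝ)) := by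
        apply Real.rpow_le_rpow_of_nonpos _ _ (by norm_num)
        · exact_mod_cast (by omega : 0 < n1)
        · exact_mod_cast (Nat.div_le_self n l)
      nlinarith
    have h21 : Real.exp (-(E0 * x ^ (96 / 5 : ℝ))) ≤ c0 / 2 := by
      calc Real.exp (-(E0 * x ^ (96 / 5 : ℝ))) ≤ Real.exp (-E0) := by
            apply Real.exp_le_exp.mpr
            nlinarith
        _ ≤ Real.exp (Real.log (c0 / 2)) := by
            apply Real.exp_le_exp.mpr
            exact neg_abs_le _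
        _ = c0 / 2 := Real.exp_log (by positivity)
    have h22 := exp_le_pow hc hc1 hK2
    calc Real.exp (-((-Real.log c * B ^ 2 + E0 + 72 * (9 * l ^ 2 * B ^ 2)) * x ^ (96 / 5 : ℝ))) *
          (n : ℝ) ^ (-(5 / 48 : ℝ))
        ≤ (Real.exp (-(-Real.log c * (B ^ 2 * x ^ (96 / 5 : ℝ)))) *
          Real.exp (-(E0 * x ^ (96 / 5 : ℝ)))) * (n : ℝ) ^ (-(5 / 48 : ℝ)) := by
          apply mul_le_mul_of_nonneg_right _ hnp0.le
          rw [← Real.exp_add]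
          apply Real.exp_le_exp.mpr
          have : 0 ≤ 72 * (9 * l ^ 2 * B ^ 2) * x ^ (96 / 5 : ℝ) := by positivity
          nlinarith
      _ ≤ (c ^ (K ^ 2) * (c0 / 2)) * (n : ℝ) ^ (-(5 / 48 : ℝ)) := by
          apply mul_le_mul_of_nonneg_right _ hnp0.le
          exact mul_le_mul h22 h21 (Real.exp_pos _).le (by positivity)
      _ = c ^ (K ^ 2) * (c0 / 2 * (n : ℝ) ^ (-(5 / 48 : ℝ))) := by ring
      _ ≤ _ := mul_le_mul_of_nonneg_left h18 (by positivity)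
  · -- everything open
    push Not at hcase
    have h1 : (n : ℝ) ≤ 3 * l * (B * x ^ (48 / 5 : ℝ)) := by
      have h2 : n ≤ 3 * l * K := by
        have : n1 + 1 ≤ 3 * K := by omega
        nlinarith
      have h3 : (n : ℝ) ≤ 3 * l * K := by exact_mod_cast h2
      refine h3.trans ?_
      exact mul_le_mul_of_nonneg_left hKB (by positivity)
    have h2 : (n : ℝ) ^ 2 ≤ 9 * l ^ 2 * B ^ 2 * x ^ (96 / 5 : ℝ) := by
      calc (n : ℝ) ^ 2 ≤ (3 * l * (B * x ^ (48 / 5 : ℝ))) ^ 2 := pow_le_pow_left₀ hn0.le h1 2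
        _ = 9 * l ^ 2 * B ^ 2 * x ^ (96 / 5 : ℝ) := by rw [← hxx]; ring
    refine le_trans ?_ (full_only hn hxn)
    calc _ ≤ Real.exp (-((-Real.log c * B ^ 2 + E0 + 72 * (9 * l ^ 2 * B ^ 2)) *
          x ^ (96 / 5 : ℝ))) * 1 := mul_le_mul_of_nonneg_left hnp (Real.exp_pos _).le
      _ ≤ _ := by
        rw [mul_one]
        apply Real.exp_le_exp.mpr
        have : 0 ≤ -Real.log c * B ^ 2 * x ^ (96 / 5 : ℝ) := by positivity
        have : 0 ≤ E0 * x ^ (96 / 5 : ℝ) := by positivity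
        nlinarith

end Pool.Agent.D0H47.IC
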