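import Pool.Agent.D0H47.IC.Glue

/-!
Moments of the volume of the cluster of the origin when it reaches distance `N`.
-/

set_option autoImplicit false

namespace Pool.Agent.D0H47.IC
open Finset H974 Pool.Agent.H160R2.CV Pool.Agent.H160R2.CV.Quad H362P MeasureTheory Filter
open Pool.Agent.H389R2.CD Pool.Agent.Y244.PC

theorem sd_bx {n : ℕ} {x u : Vtx} (hx : x ∈ bx n) (hu : u ∈ bx n) : sd x u ≤ 2 * n := by
  rw [w_mem_bx] at hx hu
  unfold sd
  omega

theorem sd_zz {n N : ℕ} (h : n ≤ N) {x : Vtx} (hx : x ∈ bx n) : 3 * n ≤ sd x (zz N) := by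
  rw [w_mem_bx] at hx
  unfold sd zz
  simp only
  omega

theorem zz_notMem {n N : ℕ} (hn : 1 ≤ n) (h : n ≤ N) : zz N ∉ bx n := by
  intro hm
  rw [w_mem_bx] at hm
  unfold zz at hm
  simp only at hm
  omega

/-- adding a point of the box, in presence of a far vertex -/
theorem step_far (hAr : ArS) : ∃ C : ℝ, 0 < C ∧ ∀ n N : ℕ, 1 ≤ n → n ≤ N → ∀ X : Finset Vtx,
    X.Nonempty → X ⊆ bx n → ∑ x ∈ bx n, PX (insert x (insert (zz N) X)) ≤
      C * ((n : ℝ) ^ (91 / 48 : ℝ) * (X.card : ℝ) ^ (5 / 96 : ℝ)) * PX (insert (zz N) X) := by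
  classical
  obtain ⟨c, C, hc, hC, h⟩ := add_point hAr
  refine ⟨9 + 25 * C, by positivity, fun n N hn hnN X hX hXn => ?_⟩
  have hn1 : (1 : ℝ) ≤ n := by exact_mod_cast hn
  have hn0 : (0 : ℝ) < n := by linarith
  set Z : Finset Vtx := insert (zz N) X with hZ
  obtain ⟨D, hD⟩ := exists_diam (X := Z) (Finset.insert_nonempty _ _)
  choose d hd using exists_near hX
  have hP := H362P.PX_nonneg Z
  set j : ℝ := (X.card : ℝ) with hj
  have hj1 : (1 : ℝ) ≤ j := by
    rw [hj]
    exact_mod_cast hX.card_pos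
  have hj0 : 0 < j := by linarith
  have hj9 : j ≤ 9 * (n : ℝ) ^ 2 := by
    calc j ≤ ((bx n).card : ℝ) := by
          rw [hj]
          exact_mod_cast Finset.card_le_card hXn
      _ ≤ 9 * (n : ℝ) ^ 2 := by
          rw [w_card_bx]
          nlinarith
  have h1 : ∑ x ∈ bx n, PX (insert x Z) =
      ∑ x ∈ bx n \ X, PX (insert x Z) + ∑ x ∈ X, PX (insert x Z) :=
    (Finset.sum_sdiff hXn).symm
  have h2 : ∑ x ∈ X, PX (insert x Z) = j * PX Z := by
    rw [Finset.sum_congr rfl (fun x hx => by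
      rw [Finset.insert_eq_of_mem (Finset.mem_insert_of_mem hx)]), Finset.sum_const,
      nsmul_eq_mul]
  have hnearZ : ∀ x ∈ bx n \ X, Near x Z (d x) := by
    intro x hx
    rw [Finset.mem_sdiff] at hx
    obtain ⟨⟨u, hu, hdu⟩, hmin⟩ := hd x
    refine ⟨⟨u, Finset.mem_insert_of_mem hu, hdu⟩, ?_⟩
    rintro e ⟨v, hv, rfl⟩
    rcases Finset.mem_insert.mp hv with rfl | hv
    · have e1 := sd_zz hnN hx.1
      have e2 := sd_bx hx.1 (hXn hu)
      omega
    · exact hmin ⟨v, hv, rfl⟩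
  have h3 : ∑ x ∈ bx n \ X, PX (insert x Z) ≤
      C * (25 * ((n : ℝ) ^ (91 / 48 : ℝ) * j ^ (5 / 96 : ℝ))) * PX Z := by
    calc ∑ x ∈ bx n \ X, PX (insert x Z)
        ≤ ∑ x ∈ bx n \ X, C * (d x : ℝ) ^ (-(5 / 48 : ℝ)) * PX Z := by
          apply Finset.sum_le_sum
          intro x hx
          have hxs := hx
          rw [Finset.mem_sdiff] at hxs
          have hxZ : x ∉ Z := by
            rw [hZ, Finset.mem_insert, not_or]
            refine ⟨?_, hxs.2⟩
            rintro rfl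
            exact zz_notMem hn hnN hxs.1
          have h4 := (h Z x (d x) D hxZ (hnearZ x hx) hD).2
          obtain ⟨⟨u, hu, hdu⟩, -⟩ := hd x
          have hd1 : 1 ≤ d x := by
            rw [hdu]
            apply sd_pos
            rintro rfl
            exact hxs.2 hu
          refine h4.trans ?_
          apply mul_le_mul_of_nonneg_right _ hP
          exact mul_le_mul_of_nonneg_left (fac_le hd1 D) hC.le
      _ = C * (∑ x ∈ bx n \ X, (d x : ℝ) ^ (-(5 / 48 : ℝ))) * PX Z := by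
          rw [Finset.mul_sum, Finset.sum_mul]
      _ ≤ _ := by
          apply mul_le_mul_of_nonneg_right _ hP
          apply mul_le_mul_of_nonneg_left _ hC.le
          exact near_sum hn hX hXn d (fun x _ => hd x)
  have h5 : j ≤ 9 * ((n : ℝ) ^ (91 / 48 : ℝ) * j ^ (5 / 96 : ℝ)) := by
    have e1 : j = j ^ (91 / 96 : ℝ) * j ^ (5 / 96 : ℝ) := by
      rw [← Real.rpow_add hj0]
      norm_num
    have e2 : j ^ (91 / 96 : ℝ) ≤ 9 * (n : ℝ) ^ (91 / 48 : ℝ) := by
      calc j ^ (91 / 96 : ℝ) ≤ (9 * (n : ℝ) ^ 2) ^ (91 / 96 : ℝ) :=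
            Real.rpow_le_rpow hj0.le hj9 (by norm_num)
        _ = 9 ^ (91 / 96 : ℝ) * (n : ℝ) ^ (91 / 48 : ℝ) := by
            rw [Real.mul_rpow (by norm_num) (by positivity), ← Real.rpow_natCast (n : ℝ) 2,
              ← Real.rpow_mul hn0.le]
            norm_num
        _ ≤ 9 ^ (1 : ℝ) * (n : ℝ) ^ (91 / 48 : ℝ) := by
            apply mul_le_mul_of_nonneg_right _ (by positivity)
            exact Real.rpow_le_rpow_of_exponent_le (by norm_num) (by norm_num)
        _ = _ := by rw [Real.rpow_one]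
    calc j = j ^ (91 / 96 : ℝ) * j ^ (5 / 96 : ℝ) := e1
      _ ≤ 9 * (n : ℝ) ^ (91 / 48 : ℝ) * j ^ (5 / 96 : ℝ) :=
          mul_le_mul_of_nonneg_right e2 (Real.rpow_nonneg hj0.le _)
      _ = _ := mul_assoc _ _ _
  rw [h1, h2]
  have h6 : j * PX Z ≤ 9 * ((n : ℝ) ^ (91 / 48 : ℝ) * j ^ (5 / 96 : ℝ)) * PX Z :=
    mul_le_mul_of_nonneg_right h5 hP
  calc _ ≤ C * (25 * ((n : ℝ) ^ (91 / 48 : ℝ) * j ^ (5 / 96 : ℝ))) * PX Z +
        9 * ((n : ℝ) ^ (91 / 48 : ℝ) * j ^ (5 / 96 : ℝ)) * PX Z := add_le_add h3 h6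
    _ = _ := by ring

theorem W_far {C : ℝ} (hC : 0 < C) {n N : ℕ} (hn : 1 ≤ n) (h : ∀ X : Finset Vtx,
    X.Nonempty → X ⊆ bx n → ∑ x ∈ bx n, PX (insert x (insert (zz N) X)) ≤
      C * ((n : ℝ) ^ (91 / 48 : ℝ) * (X.card : ℝ) ^ (5 / 96 : ℝ)) * PX (insert (zz N) X)) (k : ℕ) :
    ∀ (X : Finset Vtx) (J : ℕ), X.Nonempty → X ⊆ bx n → X.card + k ≤ J →
    W n k (insert (zz N) X) ≤
      (C * ((n : ℝ) ^ (91 / 48 : ℝ) * (J : ℝ) ^ (5 / 96 : ℝ))) ^ k * PX (insert (zz N) X) := by
  classical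
  induction k with
  | zero =>
    intro X J _ _ _
    rw [pow_zero, one_mul]
    exact le_rfl
  | succ k ih =>
    intro X J hX hXn hJ
    have hn0 : (0 : ℝ) < n := by exact_mod_cast hn
    set B : ℝ := C * ((n : ℝ) ^ (91 / 48 : ℝ) * (J : ℝ) ^ (5 / 96 : ℝ)) with hB
    have hB0 : 0 ≤ B := by positivity
    show ∑ x ∈ bx n, W n k (insert x (insert (zz N) X)) ≤ B ^ (k + 1) * PX (insert (zz N) X)
    calc ∑ x ∈ bx n, W n k (insert x (insert (zz N) X))
        ≤ ∑ x ∈ bx n, B ^ k * PX (insert x (insert (zz N) X)) := by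
          apply Finset.sum_le_sum
          intro x hx
          rw [Finset.insert_comm]
          apply ih _ J (Finset.insert_nonempty _ _) (Finset.insert_subset hx hXn)
          have := Finset.card_insert_le x X
          omega
      _ = B ^ k * ∑ x ∈ bx n, PX (insert x (insert (zz N) X)) := by rw [Finset.mul_sum]
      _ ≤ B ^ k * (B * PX (insert (zz N) X)) := by
          apply mul_le_mul_of_nonneg_left _ (by positivity)
          refine (h X hX hXn).trans ?_
          apply mul_le_mul_of_nonneg_right _ (H362P.PX_nonneg _)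
          rw [hB]
          apply mul_le_mul_of_nonneg_left _ hC.le
          apply mul_le_mul_of_nonneg_left _ (by positivity)
          apply Real.rpow_le_rpow (by positivity) _ (by norm_num)
          exact_mod_cast (by omega : X.card ≤ J)
      _ = B ^ (k + 1) * PX (insert (zz N) X) := by ring

/-! ### the volume in the box -/

open Classical in
/-- the number of vertices of the box of radius `n` connected to the origin -/
noncomputable def ms (n : ℕ) (F : Set Edg) : ℕ := ((bx n).filter (fun u => Reach F (0, 0) u)).card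

theorem ms_sum (n : ℕ) (F : Set Edg) : ∑ x ∈ bx n, ind (Reach F (0, 0) x) = (ms n F : ℝ) := by
  classical
  unfold ms ind
  rw [Finset.sum_boole]

theorem ms_le (n : ℕ) (F : Set Edg) : (ms n F : ℝ) ≤ (2 * (n : ℝ) + 1) ^ 2 := by
  classical
  rw [← w_card_bx]
  unfold ms
  exact_mod_cast Finset.card_filter_le _ _

theorem Cn_insert_iff {X : Finset Vtx} (h0 : (0, 0) ∈ X) {x : Vtx} {F : Set Edg} :
    Cn (insert x X) F ↔ Cn X F ∧ Reach F (0, 0) x := by
  constructor
  · intro h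
    exact ⟨fun u hu v hv => h u (Finset.mem_insert_of_mem hu) v (Finset.mem_insert_of_mem hv),
      h _ (Finset.mem_insert_of_mem h0) _ (Finset.mem_insert_self _ _)⟩
  · rintro ⟨h1, h2⟩
    exact Cn_insert h1 h0 h2.symm

/-- numbers of connected tuples -/
noncomputable def Vm (n : ℕ) (F : Set Edg) : ℕ → Finset Vtx → ℝ
  | 0, X => ind (Cn X F)
  | k + 1, X => ∑ x ∈ bx n, Vm n F k (insert x X)

theorem Vm_eq (n : ℕ) (F : Set Edg) (k : ℕ) (X : Finset Vtx) (h0 : (0, 0) ∈ X) :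
    Vm n F k X = (ms n F : ℝ) ^ k * ind (Cn X F) := by
  induction k generalizing X with
  | zero => rw [pow_zero, one_mul]; rfl
  | succ k ih =>
    show ∑ x ∈ bx n, Vm n F k (insert x X) = _
    rw [Finset.sum_congr rfl (fun x _ => ih (insert x X) (Finset.mem_insert_of_mem h0))]
    rw [Finset.sum_congr rfl (fun x _ => by
      rw [ind_congr (Cn_insert_iff h0 (x := x) (F := F)), ind_and]), pow_succ, ← ms_sum,
      Finset.mul_sum, Finset.sum_mul]
    apply Finset.sum_congr rfl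
    intro x _
    rw [ms_sum]
    ring

theorem int_ind {Q : Set Edg → Prop} (hQ : Inc Q) :
    Integrable (fun ω : sqLattice.edgeSet → Bool => ind (Q (opn ω))) (bondLaw hlf) ∧
      ∫ ω, ind (Q (opn ω)) ∂(bondLaw hlf) = Ev Q := by
  classical
  have e : (fun ω : sqLattice.edgeSet → Bool => ind (Q (opn ω))) =
      Set.indicator {ω | Q (opn ω)} 1 := by
    funext ω
    by_cases h : Q (opn ω)
    · rw [ind_of h, Set.indicator_of_mem (show ω ∈ {ω | Q (opn ω)} from h), Pi.one_apply]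
    · rw [ind_not_of h, Set.indicator_of_notMem (show ω ∉ {ω | Q (opn ω)} from h)]
  rw [e]
  refine ⟨?_, integral_indicator_one hQ.meas⟩
  exact (integrable_const (1 : ℝ)).indicator hQ.meas

/-- moments on the event that the origin is connected to distance `N` -/
noncomputable def Im (n N k : ℕ) (X : Finset Vtx) : ℝ :=
  ∫ ω, Vm n (opn ω) k X * ind (FarS N (opn ω)) ∂(bondLaw hlf)

theorem Vm_int (n N k : ℕ) (X : Finset Vtx) :
    Integrable (fun ω : sqLattice.edgeSet → Bool => Vm n (opn ω) k X * ind (FarS N (opn ω)))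
      (bondLaw hlf) := by
  induction k generalizing X with
  | zero =>
    have h := (int_ind ((inc_Cn X).and (inc_FarS N))).1
    refine h.congr (Filter.Eventually.of_forall fun ω => ?_)
    show ind (Cn X (opn ω) ∧ FarS N (opn ω)) = ind (Cn X (opn ω)) * ind (FarS N (opn ω))
    exact ind_and _ _
  | succ k ih =>
    have e : (fun ω : sqLattice.edgeSet → Bool => Vm n (opn ω) (k + 1) X * ind (FarS N (opn ω))) =
        fun ω => ∑ x ∈ bx n, Vm n (opn ω) k (insert x X) * ind (FarS N (opn ω)) := by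
      funext ω
      show (∑ x ∈ bx n, Vm n (opn ω) k (insert x X)) * _ = _
      rw [Finset.sum_mul]
    rw [e]
    exact integrable_finsetSum _ fun x _ => ih _

theorem Im_zero (n N : ℕ) (X : Finset Vtx) :
    Im n N 0 X = Ev (fun F => Cn X F ∧ FarS N F) := by
  rw [← (int_ind ((inc_Cn X).and (inc_FarS N))).2]
  unfold Im
  apply integral_congr_ae
  refine Filter.Eventually.of_forall fun ω => ?_
  show ind (Cn X (opn ω)) * ind (FarS N (opn ω)) = ind (Cn X (opn ω) ∧ FarS N (opn ω))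
  rw [ind_and]

theorem Im_succ (n N k : ℕ) (X : Finset Vtx) :
    Im n N (k + 1) X = ∑ x ∈ bx n, Im n N k (insert x X) := by
  unfold Im
  rw [← integral_finsetSum _ (fun x _ => Vm_int n N k (insert x X))]
  apply integral_congr_ae
  refine Filter.Eventually.of_forall fun ω => ?_
  show (∑ x ∈ bx n, Vm n (opn ω) k (insert x X)) * _ = _
  rw [Finset.sum_mul]

theorem Im_le {K : ℝ} (hK : 0 ≤ K) {N : ℕ} (h : ∀ Q : Set Edg → Prop, Inc Q →
    Ev (fun F => Q F ∧ FarS N F) ≤ K * Ev (fun F => Q F ∧ Reach F (0, 0) (zz N)))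
    (n k : ℕ) (X : Finset Vtx) (h0 : (0, 0) ∈ X) :
    Im n N k X ≤ K * W n k (insert (zz N) X) := by
  classical
  induction k generalizing X with
  | zero =>
    rw [Im_zero]
    refine (h _ (inc_Cn X)).trans ?_
    apply mul_le_mul_of_nonneg_left _ hK
    exact Ev_mono fun F hF => (Cn_insert_iff h0).mpr hF
  | succ k ih =>
    rw [Im_succ]
    show _ ≤ K * ∑ x ∈ bx n, W n k (insert x (insert (zz N) X))
    rw [Finset.mul_sum]
    apply Finset.sum_le_sum
    intro x _
    rw [Finset.insert_comm]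
    exact ih _ (Finset.mem_insert_of_mem h0)

/-- upper bound for the moments -/
theorem moment_upper (hAr : ArSharp) : ∃ C : ℝ, 0 < C ∧ ∀ n N k : ℕ, 1 ≤ n → n ≤ N → 3 ≤ N →
    ∫ ω, (ms n (opn ω) : ℝ) ^ k * ind (FarS N (opn ω)) ∂(bondLaw hlf) ≤
      C * (C * ((n : ℝ) ^ (91 / 48 : ℝ) * ((k + 1 : ℕ) : ℝ) ^ (5 / 96 : ℝ))) ^ k *
        (N : ℝ) ^ (-(5 / 48 : ℝ)) := by
  classical
  have hAr' : ArS := hAr
  obtain ⟨K, hK, hglue⟩ := glue_ev hAr
  obtain ⟨C1, hC1, h1⟩ := step_far hAr'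
  obtain ⟨c2, C2, hc2, hC2, h2⟩ := two_point hAr'
  refine ⟨max C1 (K * C2), lt_max_of_lt_left hC1, fun n N k hn hnN hN => ?_⟩
  have hN0 : (0 : ℝ) < N := by exact_mod_cast (by omega : 0 < N)
  have hn0 : (0 : ℝ) < n := by exact_mod_cast hn
  have h0 : ((0, 0) : Vtx) ∈ bx n := by
    rw [w_mem_bx]
    simp
  have e1 : ∫ ω, (ms n (opn ω) : ℝ) ^ k * ind (FarS N (opn ω)) ∂(bondLaw hlf) =
      Im n N k {(0, 0)} := by
    unfold Im
    apply integral_congr_ae
    refine Filter.Eventually.of_forall fun ω => ?_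
    show (ms n (opn ω) : ℝ) ^ k * ind (FarS N (opn ω)) =
      Vm n (opn ω) k {(0, 0)} * ind (FarS N (opn ω))
    rw [Vm_eq n (opn ω) k {(0, 0)} (Finset.mem_singleton_self _)]
    have : Cn {((0, 0) : Vtx)} (opn ω) := by
      intro u hu v hv
      rw [Finset.mem_singleton] at hu hv
      rw [hu, hv]
      exact Reach.refl _ _
    rw [ind_of this, mul_one]
  rw [e1]
  have e2 := Im_le (K := K * (N : ℝ) ^ (5 / 48 : ℝ)) (by positivity) (fun Q hQ => hglue N hN Q hQ)
    n k {(0, 0)} (Finset.mem_singleton_self _)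
  have e3 := W_far hC1 hn (h1 n N hn hnN) k {(0, 0)} (k + 1) (Finset.singleton_nonempty _)
    (Finset.singleton_subset_iff.mpr h0) (by rw [Finset.card_singleton]; omega)
  have hne : zz N ≠ (0, 0) := by
    unfold zz
    intro h
    have := congrArg Prod.fst h
    simp only at this
    omega
  have e4 : PX (insert (zz N) {(0, 0)}) ≤ C2 * (N : ℝ) ^ (-(5 / 24 : ℝ)) := by
    refine (h2 _ _ hne).2.trans ?_
    apply mul_le_mul_of_nonneg_left _ hC2.le
    apply Real.rpow_le_rpow_of_nonpos hN0 _ (by norm_num)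
    have : N ≤ sd (zz N) (0, 0) := by
      unfold sd zz
      simp only
      omega
    exact_mod_cast this
  have e5 : (N : ℝ) ^ (5 / 48 : ℝ) * (N : ℝ) ^ (-(5 / 24 : ℝ)) = (N : ℝ) ^ (-(5 / 48 : ℝ)) := by
    rw [← Real.rpow_add hN0]
    norm_num
  set B : ℝ := C1 * ((n : ℝ) ^ (91 / 48 : ℝ) * ((k + 1 : ℕ) : ℝ) ^ (5 / 96 : ℝ)) with hB
  have hB0 : 0 ≤ B := by positivity
  have hBm : B ≤ max C1 (K * C2) *
      ((n : ℝ) ^ (91 / 48 : ℝ) * ((k + 1 : ℕ) : ℝ) ^ (5 / 96 : ℝ)) :=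
    mul_le_mul_of_nonneg_right (le_max_left _ _) (by positivity)
  calc Im n N k {(0, 0)} ≤ K * (N : ℝ) ^ (5 / 48 : ℝ) * W n k (insert (zz N) {(0, 0)}) := e2
    _ ≤ K * (N : ℝ) ^ (5 / 48 : ℝ) * (B ^ k * (C2 * (N : ℝ) ^ (-(5 / 24 : ℝ)))) := by
        apply mul_le_mul_of_nonneg_left _ (by positivity)
        exact e3.trans (mul_le_mul_of_nonneg_left e4 (by positivity))
    _ = (K * C2) * B ^ k * (N : ℝ) ^ (-(5 / 48 : ℝ)) := by rw [← e5]; ring
    _ ≤ _ := by
        apply mul_le_mul_of_nonneg_right _ (by positivity)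
        apply mul_le_mul (le_max_right _ _) (pow_le_pow_left₀ hB0 hBm k) (by positivity)
        exact le_trans (by positivity) (le_max_left _ _)

end Pool.Agent.D0H47.IC
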