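import Pool.Agent.D0H47.IC.Mom

/-!
The upper tail of the volume of the cluster of the origin when it reaches distance `N`.
-/

set_option autoImplicit false

namespace Pool.Agent.D0H47.IC
open Finset H974 Pool.Agent.H160R2.CV Pool.Agent.H160R2.CV.Quad H362P MeasureTheory Filter
open Pool.Agent.H389R2.CD Pool.Agent.Y244.PC

/-! ### the arm of the origin -/

theorem sub_zero' (v : Vtx) : v - (0, 0) = v := sub_zero v

theorem pr_FarS_le (N m : ℕ) : Pr P (boxE m) (fun F => FarS N ↑F) ≤ ar N := by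
  refine le_trans (Pr_mono Quad.okP ?_) (pr_LA (boxE m) (0, 0) N)
  intro F _ hF
  exact LA_of_far le_rfl (FarS_iff.mp hF)

theorem pr_FarS_ge {N m : ℕ} (h : N ≤ m) : ar N ≤ Pr P (boxE m) (fun F => FarS N ↑F) := by
  have h1 := far_ge (S := boxE m) (n := 0) (r := N) (boxE_mono (by omega)) (v := (0, 0))
    (by rw [w_mem_bx]; simp)
  refine h1.trans (Pr_mono Quad.okP ?_)
  intro F _ hF
  exact FarS_iff.mpr hF

theorem Ev_FarS (N : ℕ) : Ev (FarS N) = ar N := by
  apply le_antisymm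
  · exact (inc_FarS N).up _ fun m => pr_FarS_le N m
  · exact (pr_FarS_ge le_rfl).trans ((inc_FarS N).le N)

theorem low_of_fin {Q R : Set Edg → Prop} (hQ : Inc Q) (hR : Inc R) {p : ℝ} (hp : 0 < p) (M0 : ℕ)
    (h : ∀ M : ℕ, M0 ≤ M → p * Pr P (boxE M) (fun F => Q ↑F) ≤ Pr P (boxE M) (fun F => R ↑F)) :
    p * Ev Q ≤ Ev R := by
  have h1 : Ev Q ≤ Ev R / p := by
    apply hQ.up
    intro m
    rw [le_div_iff₀ hp, mul_comm]
    calc p * Pr P (boxE m) (fun F => Q ↑F) ≤ p * Pr P (boxE (M0 + m)) (fun F => Q ↑F) :=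
          mul_le_mul_of_nonneg_left (hQ.pr_mono (by omega)) hp.le
      _ ≤ _ := h _ (by omega)
      _ ≤ _ := hR.le _
  rw [le_div_iff₀ hp, mul_comm] at h1
  exact h1

/-! ### the volume is large -/

/-- at least `y` vertices of the box are connected to the origin -/
def MsG (n : ℕ) (y : ℝ) (F : Set Edg) : Prop := y ≤ (ms n F : ℝ)

theorem ms_ge_of {n : ℕ} {F : Set Edg} {T : Finset Vtx} (hT : T ⊆ bx n)
    (h : ∀ u ∈ T, Reach F (0, 0) u) : T.card ≤ ms n F := by
  classical
  unfold ms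
  apply Finset.card_le_card
  intro u hu
  rw [Finset.mem_filter]
  exact ⟨hT hu, h u hu⟩

theorem ms_mono {n : ℕ} {F G : Set Edg} (h : F ⊆ G) : ms n F ≤ ms n G := by
  classical
  apply ms_ge_of (Finset.filter_subset _ _)
  intro u hu
  rw [Finset.mem_filter] at hu
  exact hu.2.mono h

theorem ms_box {n : ℕ} (F : Set Edg) : ∃ m : ℕ, ms n F ≤ ms n (F ∩ ↑(boxE m)) := by
  classical
  have h1 : ∀ u : Vtx, ∃ m : ℕ, Reach F (0, 0) u → Reach (F ∩ ↑(boxE m)) (0, 0) u := by
    intro u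
    by_cases hu : Reach F (0, 0) u
    · obtain ⟨m, hm⟩ := InfAux.reach_box hu
      exact ⟨m, fun _ => hm⟩
    · exact ⟨0, fun h => absurd h hu⟩
  choose m hm using h1
  refine ⟨(bx n).sup m, ?_⟩
  apply ms_ge_of (Finset.filter_subset _ _)
  intro u hu
  rw [Finset.mem_filter] at hu
  exact (hm u hu.2).mono (Set.inter_subset_inter_right _
    (InfAux.boxE_coe_mono (Finset.le_sup hu.1)))

theorem inc_MsG (n : ℕ) (y : ℝ) : Inc (MsG n y) := by
  refine ⟨fun F G h hF => le_trans hF (by exact_mod_cast ms_mono h), fun F hF => ?_⟩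
  obtain ⟨m, hm⟩ := ms_box (n := n) F
  exact ⟨m, le_trans hF (by exact_mod_cast hm)⟩

/-- Markov's inequality -/
theorem markov (n N k : ℕ) {y : ℝ} (hy : 0 ≤ y) :
    y ^ k * Ev (fun F => MsG n y F ∧ FarS N F) ≤
      ∫ ω, (ms n (opn ω) : ℝ) ^ k * ind (FarS N (opn ω)) ∂(bondLaw hlf) := by
  have hI := int_ind ((inc_MsG n y).and (inc_FarS N))
  rw [← hI.2, ← integral_const_mul]
  have hint : Integrable (fun ω : sqLattice.edgeSet → Bool =>
      (ms n (opn ω) : ℝ) ^ k * ind (FarS N (opn ω))) (bondLaw hlf) := by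
    have h := Vm_int n N k {(0, 0)}
    refine h.congr (Filter.Eventually.of_forall fun ω => ?_)
    show Vm n (opn ω) k {(0, 0)} * ind (FarS N (opn ω)) =
      (ms n (opn ω) : ℝ) ^ k * ind (FarS N (opn ω))
    rw [Vm_eq n (opn ω) k {(0, 0)} (Finset.mem_singleton_self _)]
    have : Cn {((0, 0) : Vtx)} (opn ω) := by
      intro u hu v hv
      rw [Finset.mem_singleton] at hu hv
      rw [hu, hv]
      exact Reach.refl _ _
    rw [ind_of this, mul_one]
  apply integral_mono (hI.1.const_mul _) hint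
  intro ω
  show y ^ k * ind (MsG n y (opn ω) ∧ FarS N (opn ω)) ≤
    (ms n (opn ω) : ℝ) ^ k * ind (FarS N (opn ω))
  rw [ind_and, ← mul_assoc]
  apply mul_le_mul_of_nonneg_right _ (ind_nonneg _)
  by_cases h : MsG n y (opn ω)
  · rw [ind_of h, mul_one]
    exact pow_le_pow_left₀ hy h k
  · rw [ind_not_of h, mul_zero]
    positivity

/-- the upper tail, upper bound -/
theorem up_upper (hAr : ArSharp) : ∃ c C : ℝ, 0 < c ∧ 0 < C ∧ ∀ n N : ℕ, 1 ≤ n → n ≤ N →
    ∀ x : ℝ, 1 ≤ x → Ev (fun F => MsG n (x * (n : ℝ) ^ (91 / 48 : ℝ)) F ∧ FarS N F) ≤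
      C * Real.exp (-(c * x ^ (96 / 5 : ℝ))) * Ev (FarS N) := by
  obtain ⟨C, hC, h⟩ := moment_upper hAr
  obtain ⟨c0, C0, hc0, hC0, har⟩ := hAr
  set b : ℝ := 1 / (Real.exp 1 * C) with hb
  have he := Real.exp_pos 1
  have hb0 : 0 < b := by positivity
  -- two constants for the small values
  set c : ℝ := b ^ (96 / 5 : ℝ) with hc
  have hcp : 0 < c := by positivity
  set B25 : ℝ := Real.exp (c * (25 : ℝ) ^ (96 / 5 : ℝ)) with hB25
  have hB251 : 1 ≤ B25 := Real.one_le_exp (by positivity)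
  refine ⟨c, (C / c0 + 1) * Real.exp 3 + B25, hcp, by positivity,
    fun n N hn hnN x hx => ?_⟩
  have hn0 : (0 : ℝ) < n := by exact_mod_cast hn
  have hn1 : (1 : ℝ) ≤ n := by exact_mod_cast hn
  have hx0 : 0 < x := by linarith
  have hEv := Ev_nonneg (FarS N)
  have hle : Ev (fun F => MsG n (x * (n : ℝ) ^ (91 / 48 : ℝ)) F ∧ FarS N F) ≤ Ev (FarS N) :=
    Ev_mono fun F hF => hF.2
  by_cases hN : 3 ≤ N
  · set t : ℝ := (b * x) ^ (96 / 5 : ℝ) with ht
    have ht0 : 0 < t := by positivity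
    have htx : c * x ^ (96 / 5 : ℝ) = t := by
      rw [ht, Real.mul_rpow hb0.le hx0.le]
    rw [htx]
    by_cases h2 : t < 1
    · refine hle.trans ?_
      have h3 : (1 : ℝ) ≤ Real.exp 3 * Real.exp (-t) := by
        rw [← Real.exp_add]
        apply Real.one_le_exp
        linarith
      have h5 : 1 ≤ ((C / c0 + 1) * Real.exp 3 + B25) * Real.exp (-t) := by
        have : 0 ≤ (C / c0) * (Real.exp 3 * Real.exp (-t)) := by positivity
        have : 0 ≤ B25 * Real.exp (-t) := by positivity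
        nlinarith
      nlinarith
    · push Not at h2
      obtain ⟨k, hk⟩ : ∃ k : ℕ, ⌊t⌋₊ = k + 1 := by
        have : 1 ≤ ⌊t⌋₊ := Nat.le_floor (by exact_mod_cast h2)
        exact ⟨⌊t⌋₊ - 1, by omega⟩
      have hk1 : ((k + 1 : ℕ) : ℝ) ≤ t := by
        rw [← hk]
        exact Nat.floor_le ht0.le
      have hk2 : t < (k : ℝ) + 2 := by
        have := Nat.lt_floor_add_one t
        rw [hk] at this
        push_cast at this
        linarith
      set Y : ℝ := x * (n : ℝ) ^ (91 / 48 : ℝ) with hY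
      have hY0 : 0 < Y := by positivity
      have h5 := (markov n N k hY0.le).trans (h n N k hn hnN hN)
      have h6 : ((k + 1 : ℕ) : ℝ) ^ (5 / 96 : ℝ) ≤ b * x := by
        calc ((k + 1 : ℕ) : ℝ) ^ (5 / 96 : ℝ) ≤ t ^ (5 / 96 : ℝ) :=
              Real.rpow_le_rpow (by positivity) hk1 (by norm_num)
          _ = b * x := by
              rw [ht, ← Real.rpow_mul (by positivity)]
              norm_num
      have h7 : C * ((n : ℝ) ^ (91 / 48 : ℝ) * ((k + 1 : ℕ) : ℝ) ^ (5 / 96 : ℝ)) ≤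
          Y * Real.exp (-1) := by
        calc C * ((n : ℝ) ^ (91 / 48 : ℝ) * ((k + 1 : ℕ) : ℝ) ^ (5 / 96 : ℝ))
            ≤ C * ((n : ℝ) ^ (91 / 48 : ℝ) * (b * x)) := by
              apply mul_le_mul_of_nonneg_left _ hC.le
              exact mul_le_mul_of_nonneg_left h6 (by positivity)
          _ = Y * Real.exp (-1) := by
              rw [hY, hb, Real.exp_neg]
              field_simp
      have hN0 : (0 : ℝ) < N := by exact_mod_cast (by omega : 0 < N)
      set M : ℝ := (N : ℝ) ^ (-(5 / 48 : ℝ)) with hM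
      have hM0 : 0 < M := by positivity
      have h8 : C * (C * ((n : ℝ) ^ (91 / 48 : ℝ) * ((k + 1 : ℕ) : ℝ) ^ (5 / 96 : ℝ))) ^ k * M ≤
          Y ^ k * (C * Real.exp (-1) ^ k * M) := by
        calc _ ≤ C * (Y * Real.exp (-1)) ^ k * M := by
              apply mul_le_mul_of_nonneg_right _ hM0.le
              apply mul_le_mul_of_nonneg_left _ hC.le
              exact pow_le_pow_left₀ (by positivity) h7 k
          _ = _ := by rw [mul_pow]; ring
      have h9 : Ev (fun F => MsG n Y F ∧ FarS N F) ≤ C * Real.exp (-1) ^ k * M :=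
        le_of_mul_le_mul_left (h5.trans h8) (by positivity)
      have h10 : M ≤ Ev (FarS N) / c0 := by
        rw [le_div_iff₀ hc0, mul_comm, Ev_FarS]
        exact (har N (by omega)).1
      have h11 : Real.exp (-1) ^ k ≤ Real.exp 3 * Real.exp (-t) := by
        rw [← Real.exp_nat_mul, ← Real.exp_add]
        apply Real.exp_le_exp.mpr
        linarith
      calc Ev (fun F => MsG n Y F ∧ FarS N F) ≤ C * Real.exp (-1) ^ k * M := h9
        _ ≤ C * (Real.exp 3 * Real.exp (-t)) * (Ev (FarS N) / c0) := by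
            apply mul_le_mul (mul_le_mul_of_nonneg_left h11 hC.le) h10 hM0.le (by positivity)
        _ = C / c0 * Real.exp 3 * Real.exp (-t) * Ev (FarS N) := by ring
        _ ≤ _ := by
            apply mul_le_mul_of_nonneg_right _ hEv
            apply mul_le_mul_of_nonneg_right _ (Real.exp_pos _).le
            nlinarith [Real.exp_pos 3]
  · push Not at hN
    by_cases hx25 : x ≤ 25
    · refine hle.trans ?_
      have h1 : x ^ (96 / 5 : ℝ) ≤ (25 : ℝ) ^ (96 / 5 : ℝ) :=
        Real.rpow_le_rpow hx0.le hx25 (by norm_num)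
      have h2 : 1 ≤ B25 * Real.exp (-(c * x ^ (96 / 5 : ℝ))) := by
        rw [hB25, ← Real.exp_add]
        apply Real.one_le_exp
        nlinarith
      have h3 : 0 ≤ (C / c0 + 1) * Real.exp 3 * Real.exp (-(c * x ^ (96 / 5 : ℝ))) := by positivity
      nlinarith
    · push Not at hx25
      have h1 : Ev (fun F => MsG n (x * (n : ℝ) ^ (91 / 48 : ℝ)) F ∧ FarS N F) = 0 := by
        have : {ω : sqLattice.edgeSet → Bool | MsG n (x * (n : ℝ) ^ (91 / 48 : ℝ)) (opn ω) ∧
            FarS N (opn ω)} = ∅ := by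
          ext ω
          simp only [Set.mem_ofPred_eq, Set.mem_empty_iff_false, iff_false, not_and]
          intro h2
          exfalso
          have h3 := ms_le n (opn ω)
          have h4 : x * (n : ℝ) ^ (91 / 48 : ℝ) ≤ (ms n (opn ω) : ℝ) := h2
          have h5 : (1 : ℝ) ≤ (n : ℝ) ^ (91 / 48 : ℝ) := Real.one_le_rpow hn1 (by norm_num)
          have h6 : (n : ℝ) ≤ 2 := by exact_mod_cast (by omega : n ≤ 2)
          nlinarith
        unfold Ev
        rw [this, measureReal_empty]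
      rw [h1]
      positivity

end Pool.Agent.D0H47.IC
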