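import Pool.Agent.D0H47.IC.Up

/-!
Lower bound for the upper tail of the volume of the cluster of the origin when it reaches
distance `N`.
-/

set_option autoImplicit false

namespace Pool.Agent.D0H47.IC
open Finset H974 Pool.Agent.H160R2.CV Pool.Agent.H160R2.CV.Quad H362P MeasureTheory Filter
open Pool.Agent.H389R2.CD Pool.Agent.Y244.PC

/-- the grid and the counts produce a large cluster of the origin -/
theorem grid_ms {n n' m k : ℕ} (hm : 1 ≤ m) (hn' : n' = m * (4 * k + 3)) (hn : n' ≤ n)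
    {F : Finset Edg} (hG : Grid n' m (2 * k + 1) F) {a : ℝ}
    (hC : ∀ q ∈ range (2 * k + 1) ×ˢ range (2 * k + 1), CtAt (cen n' m q.1 q.2) a m F)
    (hF : Far (0, 0) (4 * m) F) :
    ((2 * k + 1 : ℕ) : ℝ) ^ 2 * (a * ((m : ℝ) ^ 2 * ar m)) ≤ (ms n (↑F : Set Edg) : ℝ) := by
  classical
  have hK : 4 * m * (2 * k + 1) + 2 * m ≤ 2 * n' := by
    rw [hn']
    nlinarith
  obtain ⟨z, hz, hr⟩ := grid_meet hm hK hG
  have h0z : Reach (↑F ∩ ↑(boxE n')) (0, 0) z := by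
    apply hr k k (by omega) (by omega) (0, 0) _ hF
    have e1 : cen n' m k k = (0, 0) := by
      unfold cen st
      have : -((n' : ℕ) : ℤ) + 4 * (m : ℤ) * (k : ℤ) + 3 * (m : ℤ) = 0 := by
        rw [hn']
        push_cast
        ring
      rw [this]
    rw [e1, nv_self]
    omega
  have h1 : ∀ q : ℕ × ℕ, ∃ T : Finset Vtx, q ∈ range (2 * k + 1) ×ˢ range (2 * k + 1) →
      a * ((m : ℝ) ^ 2 * ar m) ≤ (T.card : ℝ) ∧
      ∀ u ∈ T, nv (u - cen n' m q.1 q.2) ≤ m ∧ Far u (4 * m) F := by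
    intro q
    by_cases hq : q ∈ range (2 * k + 1) ×ˢ range (2 * k + 1)
    · obtain ⟨T, h2, h3⟩ := CtAt_set (hC q hq)
      exact ⟨T, fun _ => ⟨h2, h3⟩⟩
    · exact ⟨∅, fun h => absurd h hq⟩
  choose T hT using h1
  set U : Finset Vtx := (range (2 * k + 1) ×ˢ range (2 * k + 1)).biUnion T with hU
  have hcard : ((2 * k + 1 : ℕ) : ℝ) ^ 2 * (a * ((m : ℝ) ^ 2 * ar m)) ≤ (U.card : ℝ) := by
    rw [hU, Finset.card_biUnion]
    · push_cast
      calc (2 * (k : ℝ) + 1) ^ 2 * (a * ((m : ℝ) ^ 2 * ar m))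
          = ∑ q ∈ range (2 * k + 1) ×ˢ range (2 * k + 1), a * ((m : ℝ) ^ 2 * ar m) := by
            rw [Finset.sum_const, Finset.card_product, Finset.card_range, nsmul_eq_mul]
            push_cast
            ring
        _ ≤ _ := Finset.sum_le_sum fun q hq => (hT q hq).1
    · intro q hq q' hq' hne
      show Disjoint (T q) (T q')
      rw [Finset.disjoint_left]
      intro u hu hu'
      have := cen_disj hm ((hT q hq).2 u hu).1 ((hT q' hq').2 u hu').1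
      exact hne (Prod.ext this.1 this.2)
  refine hcard.trans ?_
  have hreach : ∀ u ∈ U, Reach (↑F ∩ ↑(boxE n')) z u := by
    intro u hu
    rw [hU, Finset.mem_biUnion] at hu
    obtain ⟨q, hq, hu⟩ := hu
    obtain ⟨h2, h3⟩ := (hT q hq).2 u hu
    rw [Finset.mem_product, Finset.mem_range, Finset.mem_range] at hq
    exact (hr q.1 q.2 hq.1 hq.2 u h2 h3).symm
  have hsub : U ⊆ bx n := by
    intro u hu
    have h2 : u ∈ bx n' := w_reach_bx hz (hreach u hu)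
    rw [w_mem_bx] at h2 ⊢
    omega
  exact_mod_cast ms_ge_of hsub fun u hu =>
    (h0z.trans (hreach u hu)).mono Set.inter_subset_left

/-- many crossings and counts, together with an arm of the origin -/
theorem grid_far : ∃ a c : ℝ, 0 < a ∧ 0 < c ∧ c < 1 ∧ ∀ n N m k : ℕ, 1 ≤ m → 1 ≤ k →
    m * (4 * k + 3) ≤ n → n ≤ N →
    c ^ ((2 * k + 1) ^ 2) * Ev (FarS N) ≤ Ev (fun F =>
      MsG n (((2 * k + 1 : ℕ) : ℝ) ^ 2 * (a * ((m : ℝ) ^ 2 * ar m))) F ∧ FarS N F) := by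
  obtain ⟨a, c, ha, hc, h⟩ := count_lower
  have hc1 : c ≤ 1 := (h 1 le_rfl _ (Finset.Subset.refl _)).trans (Pr_le_one w_ok _ _)
  obtain ⟨b, hb⟩ : ∃ b : ℝ, b = 1 / 2 := ⟨_, rfl⟩
  have hb0 : 0 < b := by rw [hb]; norm_num
  have hb1 : b < 1 := by rw [hb]; norm_num
  have hbp : 0 < b ^ 1316 := pow_pos hb0 _
  have hbp1 : b ^ 1316 < 1 := pow_lt_one₀ hb0.le hb1 (by norm_num)
  obtain ⟨d, hd⟩ : ∃ d : ℝ, d = b ^ 1316 := ⟨_, rfl⟩
  rw [← hd] at hbp hbp1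
  refine ⟨a, c * d, ha, mul_pos hc hbp, by nlinarith, ?_⟩
  intro n N m k hm hk1 hmn hnN
  obtain ⟨n', hn'⟩ : ∃ n', n' = m * (4 * k + 3) := ⟨_, rfl⟩
  rw [← hn'] at hmn
  obtain ⟨K, hKe⟩ : ∃ K, K = 2 * k + 1 := ⟨_, rfl⟩
  have hK : 4 * m * K + 2 * m ≤ 2 * n' := by
    rw [hn', hKe]
    nlinarith
  have hK2 : 2 * n' ≤ 8 * m + 12 * m * K := by
    rw [hn', hKe]
    nlinarith
  have h4m : 4 * m ≤ N := by
    have : 4 * m ≤ n' := by rw [hn']; nlinarith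
    omega
  have hK1 : 1 ≤ K := by omega
  have hn0 : 0 < n' := by rw [hn']; positivity
  obtain ⟨q0, hq0⟩ : ∃ q0 : ℝ, q0 = b ^ (141 * (2 * K) + 47) := ⟨_, rfl⟩
  have hq00 : 0 ≤ q0 := by rw [hq0]; exact pow_nonneg hb0.le _
  have hstrip : q0 ≤ hh (1 / 2) (2 * (n' : ℤ)) (2 * m) := by
    rw [hq0, hb]
    apply hh_long (m := m) (by exact_mod_cast hm) (2 * K) (by omega) _ le_rfl
    push_cast
    have : (2 * (n' : ℤ)) ≤ 8 * m + 12 * m * K := by exact_mod_cast hK2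
    linarith
  have k3 := pow_bound hK1 hb0.le hb1.le
  rw [← hd, ← hq0] at k3
  rw [← hKe]
  apply low_of_fin (inc_FarS N) ((inc_MsG _ _).and (inc_FarS N)) (pow_pos (mul_pos hc hbp) _)
    (n' + 2 * m)
  intro M hM
  have hsub : boxE n' ⊆ boxE M := boxE_mono (by omega)
  have hsub2 : boxE (n' + 2 * m) ⊆ boxE M := boxE_mono hM
  have hall := fkg_all (n := n') (m := m) (K := K) (S := boxE M) (a := a) hc.le hq00
    (fun i hi => by
      rw [strip_LR hK (by rw [Finset.mem_range] at hi; omega) hsub]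
      exact hstrip)
    (fun i hi => by
      rw [strip_TB hK (by rw [Finset.mem_range] at hi; omega) hsub]
      exact hstrip)
    (fun q hq => by
      rw [Finset.mem_product, Finset.mem_range, Finset.mem_range] at hq
      exact pr_CtAt (h m hm) ((cen_bo hK hq.1 hq.2).trans hsub2))
  have hinc : IncrE (boxE M) (fun F => Grid n' m K F ∧
      ∀ q ∈ range K ×ˢ range K, CtAt (cen n' m q.1 q.2) a m F) := by
    rintro F G hFG hG ⟨⟨g1, g2⟩, g3⟩
    exact ⟨⟨fun i hi => (g1 i hi).mono hFG, fun i hi => (g2 i hi).mono hFG⟩,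
      fun q hq => CtAt_incr (boxE M) _ _ _ F G hFG hG (g3 q hq)⟩
  have hh2 := Pr_harris w_ok hinc ((inc_FarS N).fin (boxE M))
  have hlow : (c * d) ^ (K ^ 2) ≤ Pr P (boxE M) (fun F => Grid n' m K F ∧
      ∀ q ∈ range K ×ˢ range K, CtAt (cen n' m q.1 q.2) a m F) := by
    refine le_trans ?_ hall
    calc (c * d) ^ (K ^ 2) = d ^ (K ^ 2) * c ^ (K * K) := by rw [mul_pow, mul_comm, pow_two K]
      _ ≤ q0 ^ (K + 1) * q0 ^ (K + 1) * c ^ (K * K) :=
          mul_le_mul_of_nonneg_right k3 (pow_nonneg hc.le _)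
  refine (mul_le_mul_of_nonneg_right hlow (Pr_nonneg w_ok _ _)).trans (hh2.trans ?_)
  apply Pr_mono w_ok
  rintro F _ ⟨⟨hG, hCt⟩, hF⟩
  refine ⟨?_, hF⟩
  have hfar : Far (0, 0) (4 * m) F := by
    obtain ⟨v, hv, hv2⟩ := FarS_iff.mp hF
    exact ⟨v, h4m.trans hv, hv2⟩
  subst hKe
  exact grid_ms hm hn' hmn hG hCt hfar

/-- everything open in the box, together with an arm of the origin -/
theorem full_far {n N : ℕ} (hn : 1 ≤ n) {y : ℝ} (hy : y ≤ (2 * (n : ℝ) + 1) ^ 2) :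
    Real.exp (-(18 * (n : ℝ) ^ 2)) * Ev (FarS N) ≤ Ev (fun F => MsG n y F ∧ FarS N F) := by
  apply low_of_fin (inc_FarS N) ((inc_MsG _ _).and (inc_FarS N)) (Real.exp_pos _) n
  intro M hM
  have hinc : IncrE (boxE M) (fun F => boxE n ⊆ F) := fun F G h _ hF => hF.trans h
  have h0 : Pr P (boxE M) (fun F => boxE n ⊆ F) = Pr P (boxE n) (fun F => boxE n ⊆ F) := by
    apply Pr_local (boxE_mono hM) (A := fun F => boxE n ⊆ F)
    intro F _
    constructor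
    · intro h
      exact Finset.subset_inter h (Finset.Subset.refl _)
    · intro h
      exact h.trans Finset.inter_subset_left
  have h1 := extreme_prob hn (Finset.Subset.refl (boxE n)) (A := fun F => boxE n ⊆ F)
    (Finset.Subset.refl _)
  rw [← h0] at h1
  have hh2 := Pr_harris w_ok hinc ((inc_FarS N).fin (boxE M))
  refine (mul_le_mul_of_nonneg_right h1 (Pr_nonneg w_ok _ _)).trans (hh2.trans ?_)
  apply Pr_mono w_ok
  rintro F _ ⟨hG, hF⟩
  refine ⟨?_, hF⟩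
  show y ≤ (ms n (↑F : Set Edg) : ℝ)
  refine hy.trans ?_
  rw [← w_card_bx]
  have hmono : (↑(boxE n) ∩ ↑(boxE n) : Set Edg) ⊆ ↑F :=
    fun e he => Finset.mem_coe.mpr (hG (Finset.mem_coe.mp he.1))
  have hbig : ∀ u ∈ bx n, Reach (↑F : Set Edg) (-(n : ℤ), -(n : ℤ)) u := by
    rintro ⟨x, y⟩ hu
    rw [w_mem_bx] at hu
    simp only at hu
    have h1 := full_col (n := n) (y + n).toNat (by omega)
    have h2 := full_row (n := n) hu.2 (x + n).toNat (by omega)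
    have e1 : -(n : ℤ) + ((y + n).toNat : ℤ) = y := by omega
    have e2 : -(n : ℤ) + ((x + n).toNat : ℤ) = x := by omega
    rw [e1] at h1
    rw [e2] at h2
    exact (h1.trans h2).mono hmono
  have h0b : ((0, 0) : Vtx) ∈ bx n := by
    rw [w_mem_bx]
    simp
  exact_mod_cast ms_ge_of (Finset.Subset.refl _) fun u hu => (hbig _ h0b).symm.trans (hbig u hu)

/-- the upper tail, lower bound -/
theorem up_lower (hAr : ArSharp) : ∃ C : ℝ, 0 < C ∧ ∀ n N : ℕ, 1 ≤ n → n ≤ N → ∀ x : ℝ,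
    1 ≤ x → x * (n : ℝ) ^ (91 / 48 : ℝ) ≤ (2 * (n : ℝ) + 1) ^ 2 →
    Real.exp (-(C * x ^ (96 / 5 : ℝ))) * Ev (FarS N) ≤
      Ev (fun F => MsG n (x * (n : ℝ) ^ (91 / 48 : ℝ)) F ∧ FarS N F) := by
  obtain ⟨a, c, ha, hc, hc1, hg⟩ := grid_far
  obtain ⟨c0, C0, hc0, hC0, har⟩ := hAr
  set a1 : ℝ := a * c0 * (6 : ℝ) ^ (-(91 / 48 : ℝ)) with ha1
  have ha10 : 0 < a1 := by positivity
  set B : ℝ := 2 * (1 / a1) ^ (48 / 5 : ℝ) + 5 with hB
  have hB0 : 0 < B := by positivity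
  have hlog : 0 < -Real.log c := by
    have := Real.log_neg hc hc1
    linarith
  refine ⟨-Real.log c * B ^ 2 + 162 * B ^ 2, by positivity, fun n N hn hnN x hx hxn => ?_⟩
  have hn0 : (0 : ℝ) < n := by exact_mod_cast hn
  have hx0 : 0 < x := by linarith
  have hEv := Ev_nonneg (FarS N)
  set k : ℕ := ⌈(x / a1) ^ (48 / 5 : ℝ)⌉₊ with hk
  have hk1 : 1 ≤ k := by
    rw [hk, Nat.one_le_ceil_iff]
    positivity
  set K : ℕ := 2 * k + 1 with hKdef
  have hKx : (x / a1) ^ (48 / 5 : ℝ) ≤ K := by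
    refine (Nat.le_ceil _).trans ?_
    rw [← hk, hKdef]
    exact_mod_cast (by omega : k ≤ 2 * k + 1)
  have hxp : (1 : ℝ) ≤ x ^ (48 / 5 : ℝ) := Real.one_le_rpow hx (by norm_num)
  have hKB : (K : ℝ) ≤ B * x ^ (48 / 5 : ℝ) := by
    have h1 : (k : ℝ) < (x / a1) ^ (48 / 5 : ℝ) + 1 := Nat.ceil_lt_add_one (by positivity)
    have h2 : (x / a1) ^ (48 / 5 : ℝ) = (1 / a1) ^ (48 / 5 : ℝ) * x ^ (48 / 5 : ℝ) := by
      rw [← Real.mul_rpow (by positivity) hx0.le]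
      congr 1
      ring
    rw [h2] at h1
    rw [hB, hKdef]
    push_cast
    nlinarith
  have hxx : (x ^ (48 / 5 : ℝ)) ^ 2 = x ^ (96 / 5 : ℝ) := by
    rw [rpow_sq' hx0.le]
    norm_num
  have hK2 : ((K ^ 2 : ℕ) : ℝ) ≤ B ^ 2 * x ^ (96 / 5 : ℝ) := by
    rw [← hxx, ← mul_pow]
    push_cast
    exact pow_le_pow_left₀ (by positivity) hKB 2
  have hxq : (0 : ℝ) ≤ x ^ (96 / 5 : ℝ) := by positivity
  by_cases hcase : 4 * k + 3 ≤ n
  · -- grid
    set m : ℕ := n / (4 * k + 3) with hm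
    have hm1 : 1 ≤ m := by
      rw [hm, Nat.le_div_iff_mul_le (by omega)]
      omega
    have hm2 : m * (4 * k + 3) ≤ n := Nat.div_mul_le_self _ _
    have hm3 : n < (m + 1) * (4 * k + 3) := by
      rw [hm]
      exact Nat.lt_mul_of_div_lt (Nat.lt_succ_self _) (by omega)
    have h6 : n ≤ 6 * K * m := by
      rw [hKdef]
      nlinarith
    have h7 := hg n N m k hm1 hk1 hm2 hnN
    have hm0 : (0 : ℝ) < m := by exact_mod_cast hm1
    have hK0 : (0 : ℝ) < K := by exact_mod_cast (by omega : 0 < K)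
    have h8 : x * (n : ℝ) ^ (91 / 48 : ℝ) ≤ (K : ℝ) ^ 2 * (a * ((m : ℝ) ^ 2 * ar m)) := by
      have h9 : x ≤ a1 * (K : ℝ) ^ (5 / 48 : ℝ) := by
        have h10 : ((x / a1) ^ (48 / 5 : ℝ)) ^ (5 / 48 : ℝ) ≤ (K : ℝ) ^ (5 / 48 : ℝ) :=
          Real.rpow_le_rpow (by positivity) hKx (by norm_num)
        rw [← Real.rpow_mul (by positivity)] at h10
        norm_num at h10
        rwa [div_le_iff₀ ha10, mul_comm] at h10
      have h11 : (n : ℝ) ^ (91 / 48 : ℝ) ≤ (6 : ℝ) ^ (91 / 48 : ℝ) * (K : ℝ) ^ (91 / 48 : ℝ) *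
          (m : ℝ) ^ (91 / 48 : ℝ) := by
        rw [← Real.mul_rpow (by positivity) (by positivity),
          ← Real.mul_rpow (by positivity) (by positivity)]
        apply Real.rpow_le_rpow hn0.le _ (by norm_num)
        exact_mod_cast h6
      have h12 : (m : ℝ) ^ 2 * ar m ≥ c0 * (m : ℝ) ^ (91 / 48 : ℝ) := by
        have h13 := (har m hm1).1
        have h14 : (m : ℝ) ^ (91 / 48 : ℝ) = (m : ℝ) ^ 2 * (m : ℝ) ^ (-(5 / 48 : ℝ)) := by
          rw [← Real.rpow_natCast (m : ℝ) 2, ← Real.rpow_add hm0]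
          norm_num
        rw [h14]
        have : (0 : ℝ) ≤ (m : ℝ) ^ 2 := by positivity
        nlinarith
      have h15 : (K : ℝ) ^ (5 / 48 : ℝ) * (K : ℝ) ^ (91 / 48 : ℝ) = (K : ℝ) ^ 2 := by
        rw [← Real.rpow_add hK0, ← Real.rpow_natCast (K : ℝ) 2]
        norm_num
      have h16 : (6 : ℝ) ^ (-(91 / 48 : ℝ)) * (6 : ℝ) ^ (91 / 48 : ℝ) = 1 := by
        rw [← Real.rpow_add (by norm_num)]
        norm_num
      calc x * (n : ℝ) ^ (91 / 48 : ℝ)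
          ≤ (a1 * (K : ℝ) ^ (5 / 48 : ℝ)) * ((6 : ℝ) ^ (91 / 48 : ℝ) * (K : ℝ) ^ (91 / 48 : ℝ) *
            (m : ℝ) ^ (91 / 48 : ℝ)) := mul_le_mul h9 h11 (by positivity) (by positivity)
        _ = (6 : ℝ) ^ (-(91 / 48 : ℝ)) * (6 : ℝ) ^ (91 / 48 : ℝ) *
            ((K : ℝ) ^ (5 / 48 : ℝ) * (K : ℝ) ^ (91 / 48 : ℝ)) *
            (a * (c0 * (m : ℝ) ^ (91 / 48 : ℝ))) := by rw [ha1]; ring
        _ = (K : ℝ) ^ 2 * (a * (c0 * (m : ℝ) ^ (91 / 48 : ℝ))) := by rw [h16, h15, one_mul]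
        _ ≤ _ := by
          apply mul_le_mul_of_nonneg_left _ (by positivity)
          exact mul_le_mul_of_nonneg_left h12 ha.le
    have h17 : Ev (fun F => MsG n ((K : ℝ) ^ 2 * (a * ((m : ℝ) ^ 2 * ar m))) F ∧ FarS N F) ≤
        Ev (fun F => MsG n (x * (n : ℝ) ^ (91 / 48 : ℝ)) F ∧ FarS N F) :=
      Ev_mono fun F hF => ⟨h8.trans hF.1, hF.2⟩
    refine le_trans ?_ (h7.trans h17)
    apply mul_le_mul_of_nonneg_right _ hEv
    refine le_trans ?_ (exp_le_pow hc hc1 hK2)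
    apply Real.exp_le_exp.mpr
    have : 0 ≤ 162 * B ^ 2 * x ^ (96 / 5 : ℝ) := by positivity
    nlinarith
  · -- everything open
    push Not at hcase
    have h1 : (n : ℝ) ≤ 3 * (B * x ^ (48 / 5 : ℝ)) := by
      have : (n : ℝ) ≤ 3 * K := by exact_mod_cast (by omega : n ≤ 3 * K)
      linarith
    have h2 : (n : ℝ) ^ 2 ≤ 9 * (B ^ 2 * x ^ (96 / 5 : ℝ)) := by
      calc (n : ℝ) ^ 2 ≤ (3 * (B * x ^ (48 / 5 : ℝ))) ^ 2 := pow_le_pow_left₀ hn0.le h1 2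
        _ = 9 * (B ^ 2 * x ^ (96 / 5 : ℝ)) := by rw [← hxx]; ring
    refine le_trans ?_ (full_far hn hxn)
    apply mul_le_mul_of_nonneg_right _ hEv
    apply Real.exp_le_exp.mpr
    have : 0 ≤ -Real.log c * B ^ 2 * x ^ (96 / 5 : ℝ) := by positivity
    nlinarith

end Pool.Agent.D0H47.IC
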